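import Pool.Agent.H25.NL.SparseFin

/-!
Choice of the parameters for fixed `k` and large `n`.
-/

namespace Pool.Agent.H25.NL

open Finset Filter

set_option linter.unusedSectionVars false

/-- polynomials in the logarithm are small -/
theorem ev_log (C : ℝ) (a : ℕ) {r : ℝ} (hr : 0 < r) :
    ∀ᶠ n : ℕ in atTop, C * (Real.log n + 1) ^ a ≤ (n : ℝ) ^ r := by
  have h1 : (fun x : ℝ => (Real.log x + 1) ^ a) =o[atTop] fun x : ℝ => x ^ r := by
    have h2 : (fun x : ℝ => Real.log x + 1) =O[atTop] fun x : ℝ => Real.log x := by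
      refine Asymptotics.IsBigO.add (Asymptotics.isBigO_refl _ _) ?_
      exact (Asymptotics.isLittleO_const_left.2 (Or.inr (by
        exact tendsto_norm_atTop_atTop.comp Real.tendsto_log_atTop))).isBigO
    have h3 := h2.pow a
    refine h3.trans_isLittleO ?_
    have h4 := isLittleO_log_rpow_rpow_atTop (a : ℝ) hr
    simpa using h4
  have h5 := h1.def (c := 1 / (|C| + 1)) (by positivity)
  have h6 := tendsto_natCast_atTop_atTop (R := ℝ) |>.eventually h5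
  filter_upwards [h6, eventually_ge_atTop 1] with n hn hn1
  have hn0 : (0 : ℝ) < n := by exact_mod_cast hn1
  rw [Real.norm_eq_abs, Real.norm_eq_abs, abs_of_pos (Real.rpow_pos_of_pos hn0 r)] at hn
  have hC : (0 : ℝ) < |C| + 1 := by positivity
  calc C * (Real.log n + 1) ^ a ≤ |C * (Real.log n + 1) ^ a| := le_abs_self _
    _ = |C| * |(Real.log n + 1) ^ a| := abs_mul _ _
    _ ≤ (|C| + 1) * |(Real.log n + 1) ^ a| := by
        gcongr
        linarith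
    _ ≤ (|C| + 1) * (1 / (|C| + 1) * (n : ℝ) ^ r) := by gcongr
    _ = (n : ℝ) ^ r := by field_simp

/-- constants are small -/
theorem ev_const (C : ℝ) {r : ℝ} (hr : 0 < r) : ∀ᶠ n : ℕ in atTop, C ≤ (n : ℝ) ^ r := by
  filter_upwards [ev_log C 0 hr] with n hn
  simpa using hn

theorem one_add_inv_pow_le (m : ℕ) (hm : 1 ≤ m) : (1 + 1 / (3 * m : ℝ)) ^ m ≤ 3 / 2 := by
  have hm0 : (0 : ℝ) < m := by exact_mod_cast hm
  have h1 : (1 + 1 / (3 * m : ℝ)) ≤ Real.exp (1 / (3 * m : ℝ)) := by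
    have := Real.add_one_le_exp (1 / (3 * m : ℝ))
    linarith
  have h2 : (1 + 1 / (3 * m : ℝ)) ^ m ≤ Real.exp (1 / 3) := by
    calc (1 + 1 / (3 * m : ℝ)) ^ m ≤ (Real.exp (1 / (3 * m : ℝ))) ^ m :=
          pow_le_pow_left₀ (by positivity) h1 m
      _ = Real.exp (1 / 3) := by
          rw [← Real.exp_nat_mul]
          congr 1
          field_simp
  refine h2.trans ?_
  have h3 : Real.exp (1 / 3) ^ 3 ≤ (3 / 2 : ℝ) ^ 3 := by
    rw [← Real.exp_nat_mul]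
    have e1 : ((3 : ℕ) : ℝ) * (1 / 3) = 1 := by norm_num
    rw [e1]
    have := Real.exp_one_lt_d9
    norm_num
    linarith
  exact le_of_pow_le_pow_left₀ (by norm_num) (by norm_num) h3

/-- The arithmetic of the choice of parameters, packaged. -/
theorem asymp_core {δ : ℝ} (hδ : 0 < δ) (hδ1 : δ ≤ 1) {k μ : ℕ} (hμ : 1 ≤ μ)
    (hμk : (48 * μ : ℝ) ≤ δ * (k - 1)) :
    ∀ᶠ n : ℕ in atTop, ∀ (ι : Type) (s : ℕ) (T : Finset ι)
      (M : ι → SimpleGraph (Fin n) → Prop) (f : SimpleGraph (Fin n) → Prop),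
      (s : ℝ) ≤ (n : ℝ) ^ (δ * μ / 3 - 3) → (∀ t ∈ T, MonoSize s (M t)) →
      (∀ x y, (∀ t ∈ T, M t x ↔ M t y) → (f x ↔ f y)) →
      (∀ x, f x ↔ ¬ x.CliqueFree k) →
      (n : ℝ) ^ (2 - 2 * δ / 3) ≤ 24 * (k : ℝ) ^ 2 * T.card := by
  -- k is large
  have hk49 : (49 : ℝ) ≤ k := by
    have h1 : (48 : ℝ) * 1 ≤ 48 * μ := by
      have : (1 : ℝ) ≤ μ := by exact_mod_cast hμ
      linarith
    have h2 : δ * (k - 1) ≤ 1 * ((k : ℝ) - 1) ∨ (k : ℝ) - 1 < 0 := by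
      rcases le_or_gt 0 ((k : ℝ) - 1) with h | h
      · exact Or.inl (mul_le_mul_of_nonneg_right hδ1 h)
      · exact Or.inr h
    rcases h2 with h2 | h2
    · linarith
    · have : δ * (k - 1) < 0 := mul_neg_of_pos_of_neg hδ h2
      linarith
  have hk49' : 49 ≤ k := by exact_mod_cast hk49
  have hk1 : (0 : ℝ) < (k : ℝ) - 1 := by linarith
  have hμ0 : (1 : ℝ) ≤ μ := by exact_mod_cast hμ
  have hμk' : (μ : ℝ) ≤ k := by
    have : δ * ((k : ℝ) - 1) ≤ 1 * ((k : ℝ) - 1) := mul_le_mul_of_nonneg_right hδ1 hk1.le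
    linarith
  set C₁ : ℕ := k + 4 * μ + 3 with hC₁
  -- the eventual conditions
  filter_upwards [eventually_ge_atTop 2, ev_const 2 (r := δ / 3) (by positivity),
    ev_const (8 * (12 * μ : ℝ) ^ 2 * 2 ^ (4 * μ)) (r := δ / 12) (by positivity),
    ev_const (2 * (k : ℝ) ^ 2) (r := 1 / 3) (by norm_num),
    ev_const (4 * 2 ^ μ) (r := 1) one_pos,
    ev_const (2 * 2 ^ (4 * μ)) (r := 1) one_pos,
    ev_log (2 * (2 * C₁) ^ (k.choose 2)) (k.choose 2) (r := k / 2) (by positivity)]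
    with n hn2 e1 e2 e3 e4 e5 e6
  intro ι s T M f hs hM hf hfc
  have hn0 : (0 : ℝ) < n := by
    have : (2 : ℝ) ≤ n := by exact_mod_cast hn2
    linarith
  have hn1 : (1 : ℝ) ≤ n := by
    have : (2 : ℝ) ≤ n := by exact_mod_cast hn2
    linarith
  rw [Real.rpow_one] at e4 e5
  -- the parameters
  set w := ⌊(n : ℝ) ^ (δ / 3)⌋₊ with hw
  set Q := ⌈(n : ℝ) ^ (3 / ((k : ℝ) - 1))⌉₊ with hQ
  set L := C₁ * (Nat.log 2 n + 1) with hL
  have hwle : (w : ℝ) ≤ (n : ℝ) ^ (δ / 3) := Nat.floor_le (by positivity)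
  have hwge : (n : ℝ) ^ (δ / 3) / 2 ≤ w := by
    have := Nat.lt_floor_add_one ((n : ℝ) ^ (δ / 3))
    rw [← hw] at this
    linarith
  have hw1 : 1 ≤ w := by
    rw [hw, Nat.one_le_floor_iff]
    linarith
  have hwR : (1 : ℝ) ≤ w := by exact_mod_cast hw1
  have hQge : (n : ℝ) ^ (3 / ((k : ℝ) - 1)) ≤ Q := Nat.le_ceil _
  have hnQ1 : (1 : ℝ) ≤ (n : ℝ) ^ (3 / ((k : ℝ) - 1)) := Real.one_le_rpow hn1 (by positivity)
  have hQle : (Q : ℝ) ≤ 2 * (n : ℝ) ^ (3 / ((k : ℝ) - 1)) := by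
    have := Nat.ceil_lt_add_one (a := (n : ℝ) ^ (3 / ((k : ℝ) - 1))) (by positivity)
    rw [← hQ] at this
    linarith
  have hQ1 : (1 : ℝ) ≤ Q := hnQ1.trans hQge
  have hQpos : 0 < Q := by
    have : (0 : ℝ) < Q := by linarith
    exact_mod_cast this
  have : NeZero Q := ⟨hQpos.ne'⟩
  have hL1 : 1 ≤ L := by
    rw [hL, hC₁]
    exact Nat.succ_le_of_lt (Nat.mul_pos (by omega) (by omega))
  -- the density condition
  have hc : 4 * (12 * μ : ℝ) ^ 2 * (Q : ℝ) ^ (4 * μ) ≤ w := by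
    have g1 : (Q : ℝ) ^ (4 * μ) ≤ 2 ^ (4 * μ) * (n : ℝ) ^ (δ / 4) := by
      calc (Q : ℝ) ^ (4 * μ) ≤ (2 * (n : ℝ) ^ (3 / ((k : ℝ) - 1))) ^ (4 * μ) :=
            pow_le_pow_left₀ (by positivity) hQle _
        _ = 2 ^ (4 * μ) * (n : ℝ) ^ (3 / ((k : ℝ) - 1) * (4 * μ : ℕ)) := by
            rw [mul_pow, ← Real.rpow_natCast ((n : ℝ) ^ (3 / ((k : ℝ) - 1))), ← Real.rpow_mul hn0.le]
        _ ≤ 2 ^ (4 * μ) * (n : ℝ) ^ (δ / 4) := by
            refine mul_le_mul_of_nonneg_left ?_ (by positivity)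
            refine Real.rpow_le_rpow_of_exponent_le hn1 ?_
            rw [div_mul_eq_mul_div, div_le_iff₀ hk1]
            push_cast
            nlinarith
    have g2 : (n : ℝ) ^ (δ / 3) = (n : ℝ) ^ (δ / 4) * (n : ℝ) ^ (δ / 12) := by
      rw [← Real.rpow_add hn0]
      congr 1
      ring
    calc 4 * (12 * μ : ℝ) ^ 2 * (Q : ℝ) ^ (4 * μ)
        ≤ 4 * (12 * μ : ℝ) ^ 2 * (2 ^ (4 * μ) * (n : ℝ) ^ (δ / 4)) :=
          mul_le_mul_of_nonneg_left g1 (by positivity)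
      _ = (8 * (12 * μ : ℝ) ^ 2 * 2 ^ (4 * μ)) * (n : ℝ) ^ (δ / 4) / 2 := by ring
      _ ≤ (n : ℝ) ^ (δ / 12) * (n : ℝ) ^ (δ / 4) / 2 := by gcongr
      _ = (n : ℝ) ^ (δ / 3) / 2 := by
          rw [g2]
          ring
      _ ≤ w := hwge
  -- the plane
  set t := n / (2 * (k * w)) with ht
  have hkw0 : 0 < k * w := Nat.mul_pos (by omega) hw1
  have hkwt : k * w ≤ t := by
    rw [ht, Nat.le_div_iff_mul_le (by omega)]
    have g1 : (k * w * (2 * (k * w)) : ℝ) ≤ n := by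
      have g2 : (w : ℝ) ^ 2 ≤ (n : ℝ) ^ (2 / 3 : ℝ) := by
        calc (w : ℝ) ^ 2 ≤ ((n : ℝ) ^ (δ / 3)) ^ 2 := pow_le_pow_left₀ (by positivity) hwle 2
          _ = (n : ℝ) ^ (δ / 3 * 2) := by
              rw [← Real.rpow_natCast ((n : ℝ) ^ (δ / 3)), ← Real.rpow_mul hn0.le]
              norm_num
          _ ≤ (n : ℝ) ^ (2 / 3 : ℝ) := Real.rpow_le_rpow_of_exponent_le hn1 (by linarith)
      calc (k * w * (2 * (k * w)) : ℝ) = 2 * (k : ℝ) ^ 2 * (w : ℝ) ^ 2 := by ring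
        _ ≤ (n : ℝ) ^ (1 / 3 : ℝ) * (n : ℝ) ^ (2 / 3 : ℝ) := by gcongr
        _ = n := by
            rw [← Real.rpow_add hn0]
            norm_num
    exact_mod_cast g1
  have ht0 : t ≠ 0 := by omega
  obtain ⟨q, hqp, hq1, hq2⟩ := Nat.exists_prime_lt_and_le_two_mul t ht0
  have hkwq : k * w ≤ q := by omega
  have hnq : k * w * q ≤ n := by
    calc k * w * q ≤ k * w * (2 * t) := Nat.mul_le_mul_left _ hq2
      _ = t * (2 * (k * w)) := by ring
      _ ≤ n := Nat.div_mul_le_self _ _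
  have hqn : q ≤ n := le_trans (Nat.le_mul_of_pos_left _ hkw0) hnq
  have hqR : (q : ℝ) ≤ n := by exact_mod_cast hqn
  -- first error condition
  have he1 : 4 * (q : ℝ) ^ 2 * s ≤ (w : ℝ) ^ μ := by
    have g1 : ((n : ℝ) ^ (δ / 3) / 2) ^ μ ≤ (w : ℝ) ^ μ :=
      pow_le_pow_left₀ (by positivity) hwge μ
    have g2 : ((n : ℝ) ^ (δ / 3) / 2) ^ μ = (n : ℝ) ^ (δ * μ / 3) / 2 ^ μ := by
      rw [div_pow, ← Real.rpow_natCast ((n : ℝ) ^ (δ / 3)), ← Real.rpow_mul hn0.le]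
      congr 2
      ring
    rw [g2] at g1
    refine le_trans ?_ g1
    rw [le_div_iff₀ (by positivity)]
    have g3 : (n : ℝ) ^ (δ * μ / 3) = (n : ℝ) ^ (δ * μ / 3 - 3) * (n : ℝ) ^ 2 * n := by
      rw [mul_assoc, ← pow_succ, ← Real.rpow_natCast (n : ℝ) (2 + 1), ← Real.rpow_add hn0]
      congr 1
      push_cast
      ring
    calc 4 * (q : ℝ) ^ 2 * s * 2 ^ μ ≤ 4 * (n : ℝ) ^ 2 * (n : ℝ) ^ (δ * μ / 3 - 3) * 2 ^ μ := by
          gcongr
      _ = (n : ℝ) ^ (δ * μ / 3 - 3) * (n : ℝ) ^ 2 * (4 * 2 ^ μ) := by ring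
      _ ≤ (n : ℝ) ^ (δ * μ / 3 - 3) * (n : ℝ) ^ 2 * n := by gcongr
      _ = _ := g3.symm
  -- second error condition
  have hnlog : (n : ℝ) ≤ 2 ^ (Nat.log 2 n + 1) := by
    exact_mod_cast (Nat.lt_pow_succ_log_self (by norm_num) n).le
  have hsn : (s : ℝ) ≤ (n : ℝ) ^ k := by
    refine hs.trans ?_
    rw [← Real.rpow_natCast (n : ℝ) k]
    refine Real.rpow_le_rpow_of_exponent_le hn1 ?_
    have : δ * μ ≤ 1 * μ := mul_le_mul_of_nonneg_right hδ1 (by positivity)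
    linarith
  have he2 : 2 * (q : ℝ) ^ 2 * s * ((k * w + 1 : ℕ) : ℝ) ^ (4 * μ) ≤ 3 ^ L := by
    have g1 : ((k * w + 1 : ℕ) : ℝ) ≤ 2 * n := by
      have : k * w + 1 ≤ 2 * n := by omega
      exact_mod_cast this
    have g2 : (1 : ℝ) ≤ 2 ^ (Nat.log 2 n + 1) := hn1.trans hnlog
    calc 2 * (q : ℝ) ^ 2 * s * ((k * w + 1 : ℕ) : ℝ) ^ (4 * μ)
        ≤ 2 * (n : ℝ) ^ 2 * (n : ℝ) ^ k * (2 * n) ^ (4 * μ) := by gcongr
      _ = (2 * 2 ^ (4 * μ)) * ((n : ℝ) ^ 2 * (n : ℝ) ^ k * (n : ℝ) ^ (4 * μ)) := by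
          rw [mul_pow]
          ring
      _ ≤ n * ((n : ℝ) ^ 2 * (n : ℝ) ^ k * (n : ℝ) ^ (4 * μ)) := by gcongr
      _ = (n : ℝ) ^ C₁ := by
          rw [hC₁]
          ring
      _ ≤ (2 ^ (Nat.log 2 n + 1)) ^ C₁ := pow_le_pow_left₀ hn0.le hnlog _
      _ = 2 ^ L := by
          rw [hL, ← pow_mul, mul_comm C₁]
      _ ≤ 3 ^ L := pow_le_pow_left₀ (by norm_num) (by norm_num) _
  -- no clique
  have hcl : 2 * n ^ k * L ^ (k.choose 2) ≤ Q ^ (k.choose 2) := by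
    have g0 : (L : ℝ) ≤ 2 * C₁ * (Real.log n + 1) := by
      have g1 : ((Nat.log 2 n : ℕ) : ℝ) ≤ 2 * Real.log n := by
        have h1 : (2 : ℝ) ^ (Nat.log 2 n) ≤ n := by
          exact_mod_cast Nat.pow_log_le_self 2 (by omega)
        have h2 := Real.log_le_log (by positivity) h1
        rw [Real.log_pow] at h2
        have h3 : (1 / 2 : ℝ) ≤ Real.log 2 := by
          have := Real.log_two_gt_d9
          linarith
        have h4 : ((Nat.log 2 n : ℕ) : ℝ) * (1 / 2) ≤ ((Nat.log 2 n : ℕ) : ℝ) * Real.log 2 :=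
          mul_le_mul_of_nonneg_left h3 (by positivity)
        linarith
      have hlogn : 0 ≤ Real.log n := Real.log_nonneg hn1
      rw [hL]
      push_cast
      have : (0 : ℝ) ≤ C₁ := by positivity
      nlinarith
    have g1 : (n : ℝ) ^ (3 * k / 2 : ℝ) ≤ (Q : ℝ) ^ (k.choose 2) := by
      calc (n : ℝ) ^ (3 * k / 2 : ℝ) = ((n : ℝ) ^ (3 / ((k : ℝ) - 1))) ^ (k.choose 2) := by
            rw [← Real.rpow_natCast ((n : ℝ) ^ (3 / ((k : ℝ) - 1))), ← Real.rpow_mul hn0.le]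
            congr 1
            have h1 : (2 * k.choose 2 : ℝ) = (k - 1) * k := by
              have := two_mul_choose_two k
              have h2 : ((k - 1 : ℕ) : ℝ) = (k : ℝ) - 1 := by
                rw [Nat.cast_sub (by omega)]
                norm_num
              rw [← h2]
              exact_mod_cast this
            have h3 : ((k.choose 2 : ℕ) : ℝ) = (k - 1) * k / 2 := by linarith
            rw [h3]
            field_simp
        _ ≤ (Q : ℝ) ^ (k.choose 2) := pow_le_pow_left₀ (by positivity) hQge _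
    have g2 : (2 * n ^ k * L ^ (k.choose 2) : ℝ) ≤ (Q : ℝ) ^ (k.choose 2) := by
      refine le_trans ?_ g1
      have g3 : (n : ℝ) ^ (3 * k / 2 : ℝ) = (n : ℝ) ^ k * (n : ℝ) ^ (k / 2 : ℝ) := by
        rw [← Real.rpow_natCast (n : ℝ) k, ← Real.rpow_add hn0]
        congr 1
        ring
      rw [g3]
      calc (2 * n ^ k * L ^ (k.choose 2) : ℝ) ≤
            2 * (n : ℝ) ^ k * (2 * C₁ * (Real.log n + 1)) ^ (k.choose 2) := by gcongr
        _ = (n : ℝ) ^ k * (2 * (2 * C₁) ^ (k.choose 2) * (Real.log n + 1) ^ (k.choose 2)) := by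
            rw [mul_pow]
            ring
        _ ≤ (n : ℝ) ^ k * (n : ℝ) ^ (k / 2 : ℝ) := by gcongr
    exact_mod_cast g2
  -- apply the finite form
  have hm4 : 1 ≤ 4 * μ := by omega
  have h32 : (1 + 1 / (12 * μ : ℝ)) ^ (4 * μ) ≤ 3 / 2 := by
    have := one_add_inv_pow_le (4 * μ) hm4
    have e : (3 * ((4 * μ : ℕ) : ℝ)) = 12 * μ := by
      push_cast
      ring
    rwa [e] at this
  have hfin := sparse_finite (k := k) (w := w) (L := L) (Q := Q) (q := q) (n := n) (s := s)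
    (μ := μ) hqp hL1 hw1 hμ (Λ := 12 * μ) (by linarith) h32 hc hkwq hnq he1 he2 hcl T M hM f hf hfc
  -- conclusion
  have hfinR : (q : ℝ) ^ 2 ≤ 6 * T.card := by exact_mod_cast hfin
  have hnkw : (n : ℝ) ≤ 2 * (k * w) * q := by
    have h1 : n < (2 * (k * w)) * (t + 1) := by
      have := Nat.div_add_mod n (2 * (k * w))
      have h2 := Nat.mod_lt n (show 0 < 2 * (k * w) by omega)
      rw [← ht] at this
      nlinarith
    have h3 : n ≤ 2 * (k * w) * q := h1.le.trans (Nat.mul_le_mul_left _ hq1)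
    exact_mod_cast h3
  have hw2 : (w : ℝ) ^ 2 ≤ (n : ℝ) ^ (2 * δ / 3) := by
    calc (w : ℝ) ^ 2 ≤ ((n : ℝ) ^ (δ / 3)) ^ 2 := pow_le_pow_left₀ (by positivity) hwle 2
      _ = (n : ℝ) ^ (2 * δ / 3) := by
          rw [← Real.rpow_natCast ((n : ℝ) ^ (δ / 3)), ← Real.rpow_mul hn0.le]
          congr 1
          push_cast
          ring
  have hn2' : (n : ℝ) ^ 2 ≤ 24 * (k : ℝ) ^ 2 * T.card * (n : ℝ) ^ (2 * δ / 3) := by
    calc (n : ℝ) ^ 2 ≤ (2 * (k * w) * q) ^ 2 := pow_le_pow_left₀ hn0.le hnkw 2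
      _ = 4 * (k : ℝ) ^ 2 * (w : ℝ) ^ 2 * (q : ℝ) ^ 2 := by ring
      _ ≤ 4 * (k : ℝ) ^ 2 * (n : ℝ) ^ (2 * δ / 3) * (6 * T.card) := by gcongr
      _ = _ := by ring
  have hsplit : (n : ℝ) ^ 2 = (n : ℝ) ^ (2 - 2 * δ / 3) * (n : ℝ) ^ (2 * δ / 3) := by
    rw [← Real.rpow_add hn0, ← Real.rpow_natCast (n : ℝ) 2]
    congr 1
    push_cast
    ring
  rw [hsplit] at hn2'
  exact le_of_mul_le_mul_right hn2' (by positivity)

end Pool.Agent.H25.NL
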