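import Pool.Agent.H25.NL.Approx

/-!
The approximation of a monotone program on one block.
-/

namespace Pool.Agent.H25.NL

open Finset
open scoped Classical

set_option linter.unusedSectionVars false
set_option linter.unusedVariables false

section

variable {V Ω P : Type} [Fintype V] [Fintype Ω] [Fintype P]

/-- The hypotheses of the approximation method: negative test graphs `R`, positive test graphs
`A`, bounds `N b` for the number of minimal members, `w` the inverse of the density. -/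
structure BlockHyp (R : Ω → SimpleGraph V) (A : P → Finset V) (M m w : ℕ) (N : ℕ → ℝ)
    (η : ℝ) : Prop where
  hM : 0 < M
  hw : 0 < w
  hη : 0 ≤ η
  hN0 : ∀ b, 0 ≤ N b
  /-- positive graphs are spread -/
  hP : ∀ T : Finset V, T.card ≤ m →
    (nc (fun p => T ⊆ A p) : ℝ) * (w : ℝ) ^ T.card ≤ Fintype.card P
  /-- few minimal members -/
  hN : ∀ S : Finset (Finset V), Closed R M m S → ∅ ∉ S → ∀ b ≤ m, ((mins S b).card : ℝ) ≤ N b
  /-- the negative graphs contain a fixed clique often -/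
  hQ : ∀ T : Finset V, 1 ≤ T.card → T.card ≤ m →
    N T.card * 2 ^ T.card * Fintype.card Ω ≤ (w : ℝ) ^ T.card * nc (fun ω => cq T ≤ R ω)
  hE : ∑ b ∈ Finset.Ioc (m / 2) m, N b / (w : ℝ) ^ b ≤ η

variable {R : Ω → SimpleGraph V} {A : P → Finset V} {M m w : ℕ} {N : ℕ → ℝ} {η : ℝ}

/-- counting positive graphs containing a minimal member -/
theorem BlockHyp.card_large (h : BlockHyp R A M m w N η) (S : Finset (Finset V))
    (I : Finset ℕ) (hI : ∀ b ∈ I, b ≤ m) :
    (nc (fun p => ∃ b ∈ I, ∃ T ∈ mins S b, T ⊆ A p) : ℝ) ≤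
      (∑ b ∈ I, ((mins S b).card : ℝ) / (w : ℝ) ^ b) * Fintype.card P := by
  have hw : (0 : ℝ) < w := by exact_mod_cast h.hw
  calc (nc (fun p => ∃ b ∈ I, ∃ T ∈ mins S b, T ⊆ A p) : ℝ)
      ≤ ((∑ b ∈ I, ∑ T ∈ mins S b, nc (fun p => T ⊆ A p) : ℕ) : ℝ) := by
        have h1 := nc_bex_le I fun b (p : P) => ∃ T ∈ mins S b, T ⊆ A p
        have h2 : ∀ b ∈ I, nc (fun p : P => ∃ T ∈ mins S b, T ⊆ A p) ≤
            ∑ T ∈ mins S b, nc (fun p => T ⊆ A p) := fun b _ =>
          nc_bex_le (mins S b) fun T (p : P) => T ⊆ A p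
        exact_mod_cast h1.trans (Finset.sum_le_sum h2)
    _ = ∑ b ∈ I, ∑ T ∈ mins S b, (nc (fun p => T ⊆ A p) : ℝ) := by
        push_cast
        rfl
    _ ≤ ∑ b ∈ I, ∑ T ∈ mins S b, (Fintype.card P : ℝ) / (w : ℝ) ^ b := by
        refine Finset.sum_le_sum fun b hb => Finset.sum_le_sum fun T hT => ?_
        have hTb : T.card = b := (Finset.mem_filter.1 hT).2.1
        rw [le_div_iff₀ (by positivity), ← hTb]
        exact h.hP T (by rw [hTb]; exact hI b hb)
    _ = (∑ b ∈ I, ((mins S b).card : ℝ) / (w : ℝ) ^ b) * Fintype.card P := by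
        rw [Finset.sum_mul]
        refine Finset.sum_congr rfl fun b _ => ?_
        rw [Finset.sum_const, nsmul_eq_mul]
        ring

/-- members contained in a positive graph -/
theorem D_cq_iff {S : Finset (Finset V)} (h2 : ∀ T ∈ S, 2 ≤ T.card) {B : Finset V} :
    D S (cq B) ↔ ∃ T ∈ S, T ⊆ B := by
  constructor
  · rintro ⟨T, hT, hTB⟩
    exact ⟨T, hT, subset_of_cq_le (h2 T hT) hTB⟩
  · rintro ⟨T, hT, hTB⟩
    exact ⟨T, hT, cq_mono hTB⟩

theorem two_le_card {S : Finset (Finset V)} (hS : Closed R M m S) (h0 : ∅ ∉ S) :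
    ∀ T ∈ S, 2 ≤ T.card := by
  intro T hT
  by_contra hcon
  exact h0 (hS.all hT (by omega) (by simp))

/-- One conjunction. -/
theorem BlockHyp.and_step (h : BlockHyp R A M m w N η) {S S' : Finset (Finset V)}
    (hS : Closed R M m S) (hS' : Closed R M m S') :
    (nc (fun p => D S (cq (A p)) ∧ D S' (cq (A p)) ∧ ¬ D (S ∩ S') (cq (A p))) : ℝ) ≤
      2 * η * Fintype.card P := by
  have hpos : (0 : ℝ) ≤ 2 * η * Fintype.card P := by
    have := h.hη
    positivity
  by_cases h0 : ∅ ∈ S
  · have e0 : S ∩ S' = S' := by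
      refine Finset.inter_eq_right.2 fun T hT => hS.all h0 (by simp) (hS'.1 T hT)
    rw [nc_false fun p hp => hp.2.2 (by rw [e0]; exact hp.2.1)]
    simpa using hpos
  · by_cases h0' : ∅ ∈ S'
    · have e0 : S ∩ S' = S := by
        refine Finset.inter_eq_left.2 fun T hT => hS'.all h0' (by simp) (hS.1 T hT)
      rw [nc_false fun p hp => hp.2.2 (by rw [e0]; exact hp.1)]
      simpa using hpos
    · have h2 := two_le_card hS h0
      have h2' := two_le_card hS' h0'
      have hsub : nc (fun p => D S (cq (A p)) ∧ D S' (cq (A p)) ∧ ¬ D (S ∩ S') (cq (A p))) ≤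
          nc (fun p => ∃ b ∈ Finset.Ioc (m / 2) m, ∃ T ∈ mins S b, T ⊆ A p) +
          nc (fun p => ∃ b ∈ Finset.Ioc (m / 2) m, ∃ T ∈ mins S' b, T ⊆ A p) := by
        refine le_trans (nc_mono fun p hp => ?_) (nc_or_le _ _)
        obtain ⟨hp1, hp2, hp3⟩ := hp
        rw [D_cq_iff h2] at hp1
        rw [D_cq_iff h2'] at hp2
        obtain ⟨T₁, hT₁, hA₁⟩ := hp1
        obtain ⟨T₂, hT₂, hA₂⟩ := hp2
        obtain ⟨X₁, hX₁, hm₁⟩ := exists_min hT₁
        obtain ⟨X₂, hX₂, hm₂⟩ := exists_min hT₂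
        have hXS₁ : X₁ ∈ S := (Finset.mem_filter.1 hm₁).1
        have hXS₂ : X₂ ∈ S' := (Finset.mem_filter.1 hm₂).1
        by_cases hc₁ : m / 2 < X₁.card
        · left
          exact ⟨X₁.card, Finset.mem_Ioc.2 ⟨hc₁, hS.1 X₁ hXS₁⟩, X₁, hm₁, hX₁.trans hA₁⟩
        · by_cases hc₂ : m / 2 < X₂.card
          · right
            exact ⟨X₂.card, Finset.mem_Ioc.2 ⟨hc₂, hS'.1 X₂ hXS₂⟩, X₂, hm₂, hX₂.trans hA₂⟩
          · exfalso
            have hcard : (X₁ ∪ X₂).card ≤ m := by
              refine (Finset.card_union_le _ _).trans ?_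
              omega
            refine hp3 ⟨X₁ ∪ X₂, Finset.mem_inter.2
              ⟨hS.up hXS₁ Finset.subset_union_left hcard,
                hS'.up hXS₂ Finset.subset_union_right hcard⟩, cq_mono ?_⟩
            exact Finset.union_subset (hX₁.trans hA₁) (hX₂.trans hA₂)
      have hb : ∀ X : Finset (Finset V), Closed R M m X → ∅ ∉ X →
          (nc (fun p => ∃ b ∈ Finset.Ioc (m / 2) m, ∃ T ∈ mins X b, T ⊆ A p) : ℝ) ≤
            η * Fintype.card P := by
        intro X hX hX0
        refine (h.card_large X _ fun b hb => (Finset.mem_Ioc.1 hb).2).trans ?_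
        refine mul_le_mul_of_nonneg_right (le_trans (Finset.sum_le_sum fun b hb => ?_) h.hE)
          (by positivity)
        exact div_le_div_of_nonneg_right (h.hN X hX hX0 b (Finset.mem_Ioc.1 hb).2) (by positivity)
      calc (nc (fun p => D S (cq (A p)) ∧ D S' (cq (A p)) ∧ ¬ D (S ∩ S') (cq (A p))) : ℝ)
          ≤ (nc (fun p => ∃ b ∈ Finset.Ioc (m / 2) m, ∃ T ∈ mins S b, T ⊆ A p) : ℝ) +
          (nc (fun p => ∃ b ∈ Finset.Ioc (m / 2) m, ∃ T ∈ mins S' b, T ⊆ A p) : ℝ) := by
            exact_mod_cast hsub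
        _ ≤ η * Fintype.card P + η * Fintype.card P := add_le_add (hb S hS h0) (hb S' hS' h0')
        _ = 2 * η * Fintype.card P := by ring

/-- The whole program. -/
theorem BlockHyp.approx (h : BlockHyp R A M m w N η) (hm : 2 ≤ m)
    {f : ℕ → SimpleGraph V → Prop} {s : ℕ} (hf : ∀ i < s, MGate f i) :
    ∃ (E₁ : Finset P) (E₂ : Finset Ω), (E₁.card : ℝ) ≤ s * (2 * η * Fintype.card P) ∧
      (M : ℝ) * E₂.card ≤ s * (small V m * Fintype.card Ω) ∧
      ∀ i < s, ∃ S, Closed R M m S ∧ (∀ p ∉ E₁, f i (cq (A p)) → D S (cq (A p))) ∧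
        (∀ ω ∉ E₂, D S (R ω) → f i (R ω)) := by
  have hη := h.hη
  induction s with
  | zero =>
    refine ⟨∅, ∅, by simp, by simp, ?_⟩
    intro i hi
    omega
  | succ s ih =>
    obtain ⟨E₁, E₂, h1, h2, h3⟩ := ih fun i hi => hf i (by omega)
    -- it suffices to treat the new gate
    suffices H : ∃ (F₁ : Finset P) (F₂ : Finset Ω), (F₁.card : ℝ) ≤ 2 * η * Fintype.card P ∧
        (M : ℝ) * F₂.card ≤ small V m * Fintype.card Ω ∧
        ∃ S, Closed R M m S ∧ (∀ p, p ∉ E₁ → p ∉ F₁ → f s (cq (A p)) → D S (cq (A p))) ∧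
        (∀ ω, ω ∉ E₂ → ω ∉ F₂ → D S (R ω) → f s (R ω)) by
      obtain ⟨F₁, F₂, g1, g2, g3⟩ := H
      refine ⟨E₁ ∪ F₁, E₂ ∪ F₂, ?_, ?_, ?_⟩
      · have : ((E₁ ∪ F₁).card : ℝ) ≤ E₁.card + F₁.card := by
          exact_mod_cast Finset.card_union_le _ _
        push_cast
        linarith
      · have : ((E₂ ∪ F₂).card : ℝ) ≤ E₂.card + F₂.card := by
          exact_mod_cast Finset.card_union_le _ _
        have hM : (0 : ℝ) ≤ M := by positivity
        have := mul_le_mul_of_nonneg_left this hM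
        push_cast
        linarith
      · intro i hi
        rcases Nat.lt_succ_iff_lt_or_eq.1 hi with hi | rfl
        · obtain ⟨S, hS, a1, a2⟩ := h3 i hi
          refine ⟨S, hS, fun p hp => a1 p fun hp' => hp (Finset.mem_union_left _ hp'),
            fun ω hω => a2 ω fun hω' => hω (Finset.mem_union_left _ hω')⟩
        · obtain ⟨S, hS, a1, a2⟩ := g3
          refine ⟨S, hS, fun p hp => a1 p (fun hp' => hp (Finset.mem_union_left _ hp'))
            (fun hp' => hp (Finset.mem_union_right _ hp')),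
            fun ω hω => a2 ω (fun hω' => hω (Finset.mem_union_left _ hω'))
            (fun hω' => hω (Finset.mem_union_right _ hω'))⟩
    have hη0 : (0 : ℝ) ≤ 2 * η * Fintype.card P := by positivity
    have hsm : (0 : ℝ) ≤ small V m * Fintype.card Ω := by positivity
    have hcl : ∀ S₀ : Finset (Finset V), (∀ T ∈ S₀, T.card ≤ m) → ∃ (S : Finset (Finset V))
        (F₂ : Finset Ω), S₀ ⊆ S ∧ Closed R M m S ∧
        (M : ℝ) * F₂.card ≤ small V m * Fintype.card Ω ∧
        ∀ ω ∉ F₂, D S (R ω) → D S₀ (R ω) := by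
      intro S₀ h₀
      obtain ⟨S, hS1, hS2, hS3⟩ := exists_closure R M m S₀ h₀
      refine ⟨S, univ.filter fun ω => D S (R ω) ∧ ¬ D S₀ (R ω), hS1, hS2, ?_, ?_⟩
      · rw [nc_eq] at hS3
        exact_mod_cast hS3
      · intro ω hω hD
        by_contra hcon
        exact hω (Finset.mem_filter.2 ⟨Finset.mem_univ _, hD, hcon⟩)
    have hfalse : (∀ x, ¬ f s x) → ∃ (F₁ : Finset P) (F₂ : Finset Ω),
        (F₁.card : ℝ) ≤ 2 * η * Fintype.card P ∧
        (M : ℝ) * F₂.card ≤ small V m * Fintype.card Ω ∧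
        ∃ S, Closed R M m S ∧ (∀ p, p ∉ E₁ → p ∉ F₁ → f s (cq (A p)) → D S (cq (A p))) ∧
        (∀ ω, ω ∉ E₂ → ω ∉ F₂ → D S (R ω) → f s (R ω)) := by
      intro hg
      obtain ⟨S, F₂, b1, b2, b3, b4⟩ := hcl ∅ (by simp)
      refine ⟨∅, F₂, by simpa using hη0, b3, S, b2, ?_, ?_⟩
      · intro p _ _ hp
        exact absurd hp (hg _)
      · intro ω _ hω hD
        obtain ⟨T, hT, _⟩ := b4 ω hω hD
        simp at hT
    rcases hf s (by omega) with ⟨u, v, hg⟩ | hg | hg | ⟨j, k, hj, hk, hg⟩ | ⟨j, k, hj, hk, hg⟩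
    · by_cases huv : u = v
      · exact hfalse fun x hx => (x.ne_of_adj ((hg x).1 hx)) huv
      obtain ⟨S, F₂, b1, b2, b3, b4⟩ := hcl {{u, v}} (by
        intro T hT
        rw [Finset.mem_singleton] at hT
        rw [hT]
        exact (Finset.card_le_two).trans hm)
      refine ⟨∅, F₂, by simpa using hη0, b3, S, b2, ?_, ?_⟩
      · intro p _ _ hp
        rw [hg] at hp
        refine D_mono b1 ⟨{u, v}, Finset.mem_singleton_self _, cq_mono ?_⟩
        intro x hx
        rcases Finset.mem_insert.1 hx with rfl | hx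
        · exact hp.2.1
        · rw [Finset.mem_singleton.1 hx]
          exact hp.2.2
      · intro ω _ hω hD
        obtain ⟨T, hT, hTR⟩ := b4 ω hω hD
        rw [Finset.mem_singleton.1 hT] at hTR
        rw [hg]
        exact hTR ⟨huv, by simp, by simp⟩
    · refine ⟨∅, ∅, by simpa using hη0, by simpa using hsm,
        univ.filter fun T : Finset V => T.card ≤ m, ⟨?_, ?_⟩, ?_, ?_⟩
      · intro T hT
        exact (Finset.mem_filter.1 hT).2
      · intro B hB _
        exact Finset.mem_filter.2 ⟨Finset.mem_univ _, hB⟩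
      · intro p _ _ _
        exact ⟨∅, Finset.mem_filter.2 ⟨Finset.mem_univ _, by simp⟩, by
          rw [cq_eq_bot (by simp)]; exact bot_le⟩
      · intro ω _ _ _
        exact hg _
    · exact hfalse hg
    · obtain ⟨S, hS, a1, a2⟩ := h3 j (by omega)
      obtain ⟨S', hS', a1', a2'⟩ := h3 k (by omega)
      have hst := h.and_step hS hS'
      rw [nc_eq] at hst
      refine ⟨univ.filter fun p => D S (cq (A p)) ∧ D S' (cq (A p)) ∧ ¬ D (S ∩ S') (cq (A p)), ∅,
        hst, by simpa using hsm, S ∩ S', hS.inter hS', ?_, ?_⟩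
      · intro p hp hp' hfp
        rw [hg] at hfp
        by_contra hcon
        exact hp' (Finset.mem_filter.2 ⟨Finset.mem_univ _, a1 p hp hfp.1, a1' p hp hfp.2, hcon⟩)
      · intro ω hω _ hD
        rw [hg]
        exact ⟨a2 ω hω (D_mono Finset.inter_subset_left hD),
          a2' ω hω (D_mono Finset.inter_subset_right hD)⟩
    · obtain ⟨S, hS, a1, a2⟩ := h3 j (by omega)
      obtain ⟨S', hS', a1', a2'⟩ := h3 k (by omega)
      obtain ⟨X, F₂, b1, b2, b3, b4⟩ := hcl (S ∪ S') (by
        intro T hT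
        rcases Finset.mem_union.1 hT with hT | hT
        · exact hS.1 T hT
        · exact hS'.1 T hT)
      refine ⟨∅, F₂, by simpa using hη0, b3, X, b2, ?_, ?_⟩
      · intro p hp _ hfp
        rw [hg] at hfp
        rcases hfp with hfp | hfp
        · exact D_mono (Finset.subset_union_left.trans b1) (a1 p hp hfp)
        · exact D_mono (Finset.subset_union_right.trans b1) (a1' p hp hfp)
      · intro ω hω hω' hD
        rw [hg]
        obtain ⟨T, hT, hTR⟩ := b4 ω hω' hD
        rcases Finset.mem_union.1 hT with hT | hT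
        · exact Or.inl (a2 ω hω ⟨T, hT, hTR⟩)
        · exact Or.inr (a2' ω hω ⟨T, hT, hTR⟩)

/-- sum of the powers of one half -/
theorem sum_half_le (m : ℕ) : ∑ b ∈ Finset.Icc 1 m, (1 / 2 : ℝ) ^ b ≤ 1 := by
  have h : ∀ m : ℕ, ∑ b ∈ Finset.Icc 1 m, (1 / 2 : ℝ) ^ b = 1 - (1 / 2 : ℝ) ^ m := by
    intro m
    induction m with
    | zero => simp
    | succ m ih =>
      rw [Finset.sum_Icc_succ_top (by omega), ih]
      ring
  rw [h]
  have : (0 : ℝ) ≤ (1 / 2 : ℝ) ^ m := by positivity
  linarith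

/-- **Block lemma.** A monotone program which accepts a planted clique but rejects the negative
test graph is rare, up to the probability that it accepts the negative test graph. -/
theorem BlockHyp.main (h : BlockHyp R A M m w N η) (hm : 2 ≤ m) [Nonempty Ω]
    {F : SimpleGraph V → Prop} {s : ℕ} (hF : MonoSize s F) :
    (nc (fun x : P × Ω => F (cq (A x.1)) ∧ ¬ F (R x.2)) : ℝ) ≤
      Fintype.card P * nc (fun ω => F (R ω)) +
      s * (2 * η + small V m / M) * (Fintype.card P * Fintype.card Ω) := by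
  obtain ⟨f, hf, i, hi, hFi⟩ := hF
  obtain ⟨E₁, E₂, h1, h2, h3⟩ := h.approx hm hf
  obtain ⟨S, hS, a1, a2⟩ := h3 i hi
  have hM : (0 : ℝ) < M := by exact_mod_cast h.hM
  have hw : (0 : ℝ) < w := by exact_mod_cast h.hw
  have hη := h.hη
  have hΩ : (0 : ℝ) < Fintype.card Ω := by exact_mod_cast Fintype.card_pos
  have h2' : (E₂.card : ℝ) ≤ s * (small V m / M) * Fintype.card Ω := by
    rw [← mul_le_mul_iff_right₀ hM]
    refine h2.trans (le_of_eq ?_)
    field_simp
  have hP0 : (0 : ℝ) ≤ Fintype.card P := by positivity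
  have hle : nc (fun ω => F (R ω)) + nc (fun ω => ¬ F (R ω)) = Fintype.card Ω :=
    nc_add_nc_not _
  by_cases h0 : ∅ ∈ S
  · -- the approximator is constant
    have hD : ∀ ω, D S (R ω) := fun ω => ⟨∅, h0, by rw [cq_eq_bot (by simp)]; exact bot_le⟩
    have hb : nc (fun ω => ¬ F (R ω)) ≤ E₂.card := by
      rw [← nc_mem]
      refine nc_mono fun ω hω => ?_
      by_contra hcon
      exact hω ((hFi _).2 (a2 ω hcon (hD ω)))
    have hprod : nc (fun x : P × Ω => F (cq (A x.1)) ∧ ¬ F (R x.2)) ≤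
        Fintype.card P * E₂.card := by
      rw [nc_prod_and (fun p => F (cq (A p))) fun ω => ¬ F (R ω)]
      exact Nat.mul_le_mul (nc_le_card _) hb
    calc (nc (fun x : P × Ω => F (cq (A x.1)) ∧ ¬ F (R x.2)) : ℝ)
        ≤ Fintype.card P * E₂.card := by exact_mod_cast hprod
      _ ≤ Fintype.card P * (s * (small V m / M) * Fintype.card Ω) :=
          mul_le_mul_of_nonneg_left h2' hP0
      _ ≤ _ := by
          have e1 : (0 : ℝ) ≤ Fintype.card P * nc (fun ω => F (R ω)) := by positivity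
          have e2 : (0 : ℝ) ≤ s * (2 * η) * (Fintype.card P * Fintype.card Ω) := by positivity
          have e3 : (s : ℝ) * (2 * η + small V m / M) * (Fintype.card P * Fintype.card Ω) =
              s * (2 * η) * (Fintype.card P * Fintype.card Ω) +
              Fintype.card P * (s * (small V m / M) * Fintype.card Ω) := by ring
          linarith
  · have hT2 := two_le_card hS h0
    -- positive graphs accepted by the approximator
    have hpos : (nc (fun p => F (cq (A p))) : ℝ) ≤ E₁.card +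
        (nc (fun p => ∃ b ∈ Finset.Icc 1 m, ∃ T ∈ mins S b, T ⊆ A p) : ℝ) := by
      rw [← nc_mem E₁]
      norm_cast
      refine le_trans (nc_mono fun p hp => ?_) (nc_or_le _ _)
      by_cases hpE : p ∈ E₁
      · exact Or.inl hpE
      · right
        obtain ⟨T, hT, hTA⟩ := (D_cq_iff hT2).1 (a1 p hpE ((hFi _).1 hp))
        obtain ⟨X, hX, hXm⟩ := exists_min hT
        have hXS : X ∈ S := (Finset.mem_filter.1 hXm).1
        refine ⟨X.card, Finset.mem_Icc.2 ⟨?_, hS.1 X hXS⟩, X, hXm, hX.trans hTA⟩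
        have := hT2 X hXS
        omega
    have hlarge := h.card_large S (Finset.Icc 1 m) fun b hb => (Finset.mem_Icc.1 hb).2
    -- each size
    have hsize : ∀ b ∈ Finset.Icc 1 m, ((mins S b).card : ℝ) / (w : ℝ) ^ b * Fintype.card Ω ≤
        (1 / 2 : ℝ) ^ b * (nc (fun ω => F (R ω)) + E₂.card) := by
      intro b hb
      rw [Finset.mem_Icc] at hb
      rcases (mins S b).eq_empty_or_nonempty with he | ⟨T, hT⟩
      · rw [he]
        simp only [Finset.card_empty, Nat.cast_zero, zero_div, zero_mul]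
        positivity
      · have hTb : T.card = b := (Finset.mem_filter.1 hT).2.1
        have hTS : T ∈ S := (Finset.mem_filter.1 hT).1
        have hq := h.hQ T (by omega) (by omega)
        rw [hTb] at hq
        have hsub : nc (fun ω => cq T ≤ R ω) ≤ nc (fun ω => F (R ω)) + E₂.card := by
          rw [← nc_mem E₂]
          refine le_trans (nc_mono fun ω hω => ?_) (nc_or_le _ _)
          by_cases hE : ω ∈ E₂
          · exact Or.inr hE
          · exact Or.inl ((hFi _).2 (a2 ω hE ⟨T, hTS, hω⟩))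
        have hsub' : (nc (fun ω => cq T ≤ R ω) : ℝ) ≤ nc (fun ω => F (R ω)) + E₂.card := by
          exact_mod_cast hsub
        have hNb := h.hN S hS h0 b hb.2
        calc ((mins S b).card : ℝ) / (w : ℝ) ^ b * Fintype.card Ω
            ≤ N b / (w : ℝ) ^ b * Fintype.card Ω := by gcongr
          _ = (1 / 2 : ℝ) ^ b / (w : ℝ) ^ b * (N b * 2 ^ b * Fintype.card Ω) := by
              rw [div_pow, one_pow]
              field_simp
          _ ≤ (1 / 2 : ℝ) ^ b / (w : ℝ) ^ b * ((w : ℝ) ^ b * nc (fun ω => cq T ≤ R ω)) :=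
              mul_le_mul_of_nonneg_left hq (by positivity)
          _ = (1 / 2 : ℝ) ^ b * nc (fun ω => cq T ≤ R ω) := by
              field_simp
          _ ≤ _ := mul_le_mul_of_nonneg_left hsub' (by positivity)
    have hsum : (∑ b ∈ Finset.Icc 1 m, ((mins S b).card : ℝ) / (w : ℝ) ^ b) * Fintype.card Ω ≤
        nc (fun ω => F (R ω)) + E₂.card := by
      rw [Finset.sum_mul]
      refine (Finset.sum_le_sum hsize).trans ?_
      rw [← Finset.sum_mul]
      have := sum_half_le m
      have hnn : (0 : ℝ) ≤ nc (fun ω => F (R ω)) + E₂.card := by positivity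
      calc _ ≤ 1 * ((nc (fun ω => F (R ω)) : ℝ) + E₂.card) :=
            mul_le_mul_of_nonneg_right this hnn
        _ = _ := one_mul _
    have hprod : nc (fun x : P × Ω => F (cq (A x.1)) ∧ ¬ F (R x.2)) ≤
        nc (fun p => F (cq (A p))) * Fintype.card Ω := by
      rw [nc_prod_and (fun p => F (cq (A p))) fun ω => ¬ F (R ω)]
      exact Nat.mul_le_mul_left _ (nc_le_card _)
    calc (nc (fun x : P × Ω => F (cq (A x.1)) ∧ ¬ F (R x.2)) : ℝ)
        ≤ nc (fun p => F (cq (A p))) * Fintype.card Ω := by exact_mod_cast hprod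
      _ ≤ (E₁.card + (∑ b ∈ Finset.Icc 1 m, ((mins S b).card : ℝ) / (w : ℝ) ^ b) *
            Fintype.card P) * Fintype.card Ω :=
          mul_le_mul_of_nonneg_right (hpos.trans (add_le_add_right hlarge _)) hΩ.le
      _ = E₁.card * Fintype.card Ω + Fintype.card P *
            ((∑ b ∈ Finset.Icc 1 m, ((mins S b).card : ℝ) / (w : ℝ) ^ b) * Fintype.card Ω) := by
          ring
      _ ≤ (s * (2 * η * Fintype.card P)) * Fintype.card Ω + Fintype.card P *
            (nc (fun ω => F (R ω)) + s * (small V m / M) * Fintype.card Ω) := by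
          refine add_le_add (mul_le_mul_of_nonneg_right h1 hΩ.le)
            (mul_le_mul_of_nonneg_left (hsum.trans (add_le_add_right h2' _)) hP0)
      _ = _ := by ring

end

end Pool.Agent.H25.NL
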