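import Mathlib

/-!
Counting in finite product spaces.
-/

namespace Pool.Agent.H25.NL

open Finset

theorem card_forall_mem {I A : Type} [Fintype I] [DecidableEq I] [Fintype A] [DecidableEq A]
    (I₀ : Finset I) (S : I → Finset A) :
    (univ.filter fun x : I → A => ∀ i ∈ I₀, x i ∈ S i).card * Fintype.card A ^ I₀.card =
      (∏ i ∈ I₀, (S i).card) * Fintype.card A ^ Fintype.card I := by
  have h1 : (univ.filter fun x : I → A => ∀ i ∈ I₀, x i ∈ S i) =
      Fintype.piFinset fun i => if i ∈ I₀ then S i else univ := by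
    ext x
    simp only [mem_filter, mem_univ, true_and, Fintype.mem_piFinset]
    constructor
    · intro h i
      by_cases hi : i ∈ I₀
      · rw [if_pos hi]
        exact h i hi
      · rw [if_neg hi]
        exact mem_univ _
    · intro h i hi
      have := h i
      rwa [if_pos hi] at this
  rw [h1, Fintype.card_piFinset]
  have h2 : ∀ i, (if i ∈ I₀ then S i else (univ : Finset A)).card =
      if i ∈ I₀ then (S i).card else Fintype.card A := by
    intro i
    by_cases hi : i ∈ I₀
    · rw [if_pos hi, if_pos hi]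
    · rw [if_neg hi, if_neg hi, card_univ]
  rw [Finset.prod_congr rfl fun i _ => h2 i]
  rw [Finset.prod_ite]
  have h3 : (univ.filter fun i => i ∈ I₀) = I₀ := by
    ext i
    simp
  rw [h3, Finset.prod_const, mul_assoc, ← pow_add]
  congr 2
  have h4 : (univ.filter fun i => i ∉ I₀) = I₀ᶜ := by
    ext i
    simp
  rw [h4, Finset.card_compl]
  have := Finset.card_le_univ I₀
  omega

theorem card_forall_eq {I A : Type} [Fintype I] [DecidableEq I] [Fintype A] [DecidableEq A]
    (I₀ : Finset I) (c : I → A) :
    (univ.filter fun x : I → A => ∀ i ∈ I₀, x i = c i).card * Fintype.card A ^ I₀.card =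
      Fintype.card A ^ Fintype.card I := by
  have := card_forall_mem I₀ (fun i => ({c i} : Finset A))
  simpa using this

theorem sum_update {J Ω : Type} [Fintype J] [DecidableEq J] [Fintype Ω] {R : Type}
    [AddCommMonoid R] (j : J) (h : (J → Ω) → R) :
    ∑ ω : J → Ω, ∑ y : Ω, h (Function.update ω j y) = Fintype.card Ω • ∑ ω : J → Ω, h ω := by
  classical
  rw [← Fintype.sum_prod_type']
  have e : ∑ p : (J → Ω) × Ω, h (Function.update p.1 j p.2) = ∑ p : (J → Ω) × Ω, h p.1 := by
    refine Finset.sum_bij' (fun p _ => (Function.update p.1 j p.2, p.1 j))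
      (fun p _ => (Function.update p.1 j p.2, p.1 j)) ?_ ?_ ?_ ?_ ?_
    · intro p _
      exact mem_univ _
    · intro p _
      exact mem_univ _
    · intro p _
      ext <;> simp
    · intro p _
      ext <;> simp
    · intro p _
      rfl
  rw [e, Fintype.sum_prod_type]
  simp only [Finset.sum_const, Finset.card_univ]
  rw [← Finset.smul_sum]

/-- Events depending on disjoint sets of coordinates are independent. -/
theorem card_inter_mul {I A : Type} [Fintype I] [DecidableEq I] [Fintype A]
    (E : Finset I) (B C : (I → A) → Prop) [DecidablePred B] [DecidablePred C]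
    (hB : ∀ x y : I → A, (∀ i ∈ E, x i = y i) → (B x ↔ B y))
    (hC : ∀ x y : I → A, (∀ i, i ∉ E → x i = y i) → (C x ↔ C y)) :
    (univ.filter fun x : I → A => B x ∧ C x).card * Fintype.card (I → A) =
      (univ.filter fun x : I → A => B x).card * (univ.filter fun x : I → A => C x).card := by
  classical
  rw [← Finset.card_univ, ← Finset.card_product, ← Finset.card_product]
  refine Finset.card_bij'
    (fun p _ => ((fun i => if i ∈ E then p.1 i else p.2 i),
      (fun i => if i ∈ E then p.2 i else p.1 i)))
    (fun p _ => ((fun i => if i ∈ E then p.1 i else p.2 i),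
      (fun i => if i ∈ E then p.2 i else p.1 i))) ?_ ?_ ?_ ?_
  · rintro ⟨x, y⟩ hp
    simp only [mem_product, mem_filter, mem_univ, true_and, and_true] at hp ⊢
    refine ⟨(hB _ _ ?_).1 hp.1, (hC _ _ ?_).1 hp.2⟩
    · intro i hi
      rw [if_pos hi]
    · intro i hi
      rw [if_neg hi]
  · rintro ⟨x, y⟩ hp
    simp only [mem_product, mem_filter, mem_univ, true_and, and_true] at hp ⊢
    refine ⟨(hB _ _ ?_).1 hp.1, (hC _ _ ?_).1 hp.2⟩
    · intro i hi
      rw [if_pos hi]
    · intro i hi
      rw [if_neg hi]
  · rintro ⟨x, y⟩ _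
    ext i
    · by_cases hi : i ∈ E <;> simp [hi]
    · by_cases hi : i ∈ E <;> simp [hi]
  · rintro ⟨x, y⟩ _
    ext i
    · by_cases hi : i ∈ E <;> simp [hi]
    · by_cases hi : i ∈ E <;> simp [hi]

end Pool.Agent.H25.NL
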