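import Pool.Agent.H25.NL.Mono

/-!
Circuits with few arbitrary gates, and the monotone functions obtained by fixing the values of
these gates.
-/

namespace Pool.Agent.H25.NL

/-- A circuit with `s` gates on graphs with vertex set `Fin n`, in topological order: gate `i`
computes the property `fn i` of the input graph. Each gate is an edge test, a constant, the
conjunction or the disjunction of two earlier gates, or one of at most `g` special gates, which
may compute any function of at most `ρ` earlier gates. -/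
structure Circuit (n s g ρ : ℕ) where
  /-- the property computed by a gate -/
  fn : Fin s → SimpleGraph (Fin n) → Prop
  /-- the special gates -/
  special : Finset (Fin s)
  card_special : special.card ≤ g
  gate : ∀ i,
    (∃ u v, ∀ G, fn i G ↔ G.Adj u v) ∨
    (∀ G, fn i G) ∨
    (∀ G, ¬ fn i G) ∨
    (∃ j k, j < i ∧ k < i ∧ ∀ G, fn i G ↔ (fn j G ∧ fn k G)) ∨
    (∃ j k, j < i ∧ k < i ∧ ∀ G, fn i G ↔ (fn j G ∨ fn k G)) ∨
    (i ∈ special ∧ ∃ S : Finset (Fin s), S.card ≤ ρ ∧ (∀ j ∈ S, j < i) ∧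
      ∀ G H, (∀ j ∈ S, fn j G ↔ fn j H) → (fn i G ↔ fn i H))

/-- For every assignment `β` of the gates in `X` there is a monotone program which computes the
gates of the circuit as long as the gates in `X` have the values `β`. -/
theorem exists_program {n s : ℕ} (fn : Fin s → SimpleGraph (Fin n) → Prop)
    (X : Finset (Fin s)) (hX : ∀ i, i ∉ X →
      ((∃ u v, ∀ G, fn i G ↔ G.Adj u v) ∨ (∀ G, fn i G) ∨ (∀ G, ¬ fn i G) ∨
      (∃ j k, j < i ∧ k < i ∧ ∀ G, fn i G ↔ (fn j G ∧ fn k G)) ∨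
      (∃ j k, j < i ∧ k < i ∧ ∀ G, fn i G ↔ (fn j G ∨ fn k G)))) (β : Fin s → Prop) :
    ∃ f : ℕ → SimpleGraph (Fin n) → Prop, (∀ i < s, MGate f i) ∧
      (∀ i : Fin s, ∀ x, (∀ l ∈ X, l ≤ i → (fn l x ↔ β l)) → (f i x ↔ fn i x)) ∧
      (∀ i : Fin s, i ∈ X → ∀ x, f i x ↔ β i) := by
  classical
  suffices H : ∀ t ≤ s, ∃ f : ℕ → SimpleGraph (Fin n) → Prop, (∀ i < t, MGate f i) ∧
      (∀ i : Fin s, i.1 < t → ∀ x, (∀ l ∈ X, l ≤ i → (fn l x ↔ β l)) →
        (f i x ↔ fn i x)) ∧
      (∀ i : Fin s, i.1 < t → i ∈ X → ∀ x, f i x ↔ β i) by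
    obtain ⟨f, h1, h2, h3⟩ := H s le_rfl
    exact ⟨f, h1, fun i x => h2 i i.2 x, fun i => h3 i i.2⟩
  intro t
  induction t with
  | zero =>
    intro _
    refine ⟨fun _ _ => True, ?_, ?_, ?_⟩
    · intro i hi
      omega
    · intro i hi
      omega
    · intro i hi
      omega
  | succ t ih =>
    intro ht
    obtain ⟨f, h1, h2, h3⟩ := ih (by omega)
    have ht' : t < s := by omega
    obtain ⟨F, hF1, hF2, hF3⟩ : ∃ F : SimpleGraph (Fin n) → Prop,
        ((∃ u v, ∀ x, F x ↔ x.Adj u v) ∨ (∀ x, F x) ∨ (∀ x, ¬ F x) ∨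
          (∃ j k, j < t ∧ k < t ∧ ∀ x, F x ↔ (f j x ∧ f k x)) ∨
          (∃ j k, j < t ∧ k < t ∧ ∀ x, F x ↔ (f j x ∨ f k x))) ∧
        (∀ i : Fin s, i.1 = t → ∀ x, (∀ l ∈ X, l ≤ i → (fn l x ↔ β l)) → (F x ↔ fn i x)) ∧
        (∀ i : Fin s, i.1 = t → i ∈ X → ∀ x, F x ↔ β i) := by
      by_cases hs : (⟨t, ht'⟩ : Fin s) ∈ X
      · refine ⟨fun _ => β ⟨t, ht'⟩, ?_, ?_, ?_⟩
        · by_cases hb : β ⟨t, ht'⟩
          · exact Or.inr (Or.inl fun _ => hb)
          · exact Or.inr (Or.inr (Or.inl fun _ => hb))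
        · intro i hi x hx
          obtain rfl : i = ⟨t, ht'⟩ := Fin.ext hi
          exact (hx _ hs le_rfl).symm
        · intro i hi _ x
          obtain rfl : i = ⟨t, ht'⟩ := Fin.ext hi
          exact Iff.rfl
      · have key : ∀ F : SimpleGraph (Fin n) → Prop,
            ((∃ u v, ∀ x, F x ↔ x.Adj u v) ∨ (∀ x, F x) ∨ (∀ x, ¬ F x) ∨
              (∃ j k, j < t ∧ k < t ∧ ∀ x, F x ↔ (f j x ∧ f k x)) ∨
              (∃ j k, j < t ∧ k < t ∧ ∀ x, F x ↔ (f j x ∨ f k x))) →
            (∀ x, (∀ l ∈ X, l ≤ (⟨t, ht'⟩ : Fin s) → (fn l x ↔ β l)) →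
              (F x ↔ fn ⟨t, ht'⟩ x)) →
            ∃ F : SimpleGraph (Fin n) → Prop,
              ((∃ u v, ∀ x, F x ↔ x.Adj u v) ∨ (∀ x, F x) ∨ (∀ x, ¬ F x) ∨
                (∃ j k, j < t ∧ k < t ∧ ∀ x, F x ↔ (f j x ∧ f k x)) ∨
                (∃ j k, j < t ∧ k < t ∧ ∀ x, F x ↔ (f j x ∨ f k x))) ∧
              (∀ i : Fin s, i.1 = t → ∀ x, (∀ l ∈ X, l ≤ i → (fn l x ↔ β l)) →
                (F x ↔ fn i x)) ∧
              (∀ i : Fin s, i.1 = t → i ∈ X → ∀ x, F x ↔ β i) := by
          intro F hF hF'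
          refine ⟨F, hF, ?_, ?_⟩
          · intro i hi x hx
            obtain rfl : i = ⟨t, ht'⟩ := Fin.ext hi
            exact hF' x hx
          · intro i hi hiX
            obtain rfl : i = ⟨t, ht'⟩ := Fin.ext hi
            exact absurd hiX hs
        rcases hX ⟨t, ht'⟩ hs with ⟨u, v, h⟩ | h | h | ⟨j, k, hj, hk, h⟩ |
          ⟨j, k, hj, hk, h⟩
        · exact key (fun x => x.Adj u v) (Or.inl ⟨u, v, fun _ => Iff.rfl⟩)
            (fun x _ => (h x).symm)
        · exact key (fun x => True) (Or.inr (Or.inl fun _ => trivial))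
            (fun x _ => ⟨fun _ => h x, fun _ => trivial⟩)
        · exact key (fun x => False) (Or.inr (Or.inr (Or.inl fun _ => id)))
            (fun x _ => ⟨fun h' => h'.elim, fun h' => h x h'⟩)
        · have hj' : j.1 < t := hj
          have hk' : k.1 < t := hk
          refine key (fun x => f j x ∧ f k x) (Or.inr (Or.inr (Or.inr (Or.inl
            ⟨j, k, hj', hk', fun _ => Iff.rfl⟩)))) (fun x hx => ?_)
          show f j x ∧ f k x ↔ _
          rw [h, h2 j hj' x fun l hl hlj => hx l hl (hlj.trans hj.le),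
            h2 k hk' x fun l hl hlj => hx l hl (hlj.trans hk.le)]
        · have hj' : j.1 < t := hj
          have hk' : k.1 < t := hk
          refine key (fun x => f j x ∨ f k x) (Or.inr (Or.inr (Or.inr (Or.inr
            ⟨j, k, hj', hk', fun _ => Iff.rfl⟩)))) (fun x hx => ?_)
          show f j x ∨ f k x ↔ _
          rw [h, h2 j hj' x fun l hl hlj => hx l hl (hlj.trans hj.le),
            h2 k hk' x fun l hl hlj => hx l hl (hlj.trans hk.le)]
    have hne : ∀ j, j < t → Function.update f t F j = f j := fun j hj =>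
      Function.update_of_ne (by omega) _ _
    have heq : Function.update f t F t = F := Function.update_self _ _ _
    refine ⟨Function.update f t F, ?_, ?_, ?_⟩
    · intro i hi
      rcases Nat.lt_succ_iff_lt_or_eq.1 hi with hi | rfl
      · rcases h1 i hi with ⟨u, v, h⟩ | h | h | ⟨j, k, hj, hk, h⟩ | ⟨j, k, hj, hk, h⟩
        · exact Or.inl ⟨u, v, by rw [hne i hi]; exact h⟩
        · exact Or.inr (Or.inl (by rw [hne i hi]; exact h))
        · exact Or.inr (Or.inr (Or.inl (by rw [hne i hi]; exact h)))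
        · exact Or.inr (Or.inr (Or.inr (Or.inl ⟨j, k, hj, hk, by
            rw [hne i hi, hne j (hj.trans hi), hne k (hk.trans hi)]; exact h⟩)))
        · exact Or.inr (Or.inr (Or.inr (Or.inr ⟨j, k, hj, hk, by
            rw [hne i hi, hne j (hj.trans hi), hne k (hk.trans hi)]; exact h⟩)))
      · rcases hF1 with ⟨u, v, h⟩ | h | h | ⟨j, k, hj, hk, h⟩ | ⟨j, k, hj, hk, h⟩
        · exact Or.inl ⟨u, v, by rw [heq]; exact h⟩
        · exact Or.inr (Or.inl (by rw [heq]; exact h))
        · exact Or.inr (Or.inr (Or.inl (by rw [heq]; exact h)))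
        · exact Or.inr (Or.inr (Or.inr (Or.inl ⟨j, k, hj, hk, by
            rw [heq, hne j hj, hne k hk]; exact h⟩)))
        · exact Or.inr (Or.inr (Or.inr (Or.inr ⟨j, k, hj, hk, by
            rw [heq, hne j hj, hne k hk]; exact h⟩)))
    · intro i hi x hx
      rcases Nat.lt_succ_iff_lt_or_eq.1 hi with hi | hi
      · rw [hne i hi]
        exact h2 i hi x hx
      · rw [hi, heq]
        exact hF2 i hi x hx
    · intro i hi his x
      rcases Nat.lt_succ_iff_lt_or_eq.1 hi with hi | hi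
      · rw [hne i hi]
        exact h3 i hi his x
      · rw [hi, heq]
        exact hF3 i hi his x

/-- The output of a circuit with few special gates is a function of few monotone functions of
small size. -/
theorem Circuit.exists_monotone_family {n s g ρ : ℕ} (C : Circuit n s g ρ) (out : Fin s) :
    ∃ (T : Finset (Finset (Fin s) × Fin s)) (M : Finset (Fin s) × Fin s →
        SimpleGraph (Fin n) → Prop), T.card ≤ 2 ^ g * (g * ρ + 1) ∧
      (∀ t ∈ T, MonoSize s (M t)) ∧
      ∀ x y, (∀ t ∈ T, M t x ↔ M t y) → (C.fn out x ↔ C.fn out y) := by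
  classical
  -- special gates that are of special type
  let P : Fin s → Finset (Fin s) → Prop := fun i S => S.card ≤ ρ ∧ (∀ j ∈ S, j < i) ∧
        ∀ G H, (∀ j ∈ S, C.fn j G ↔ C.fn j H) → (C.fn i G ↔ C.fn i H)
  let X : Finset (Fin s) := C.special.filter fun i => ∃ S, P i S
  have hXc : X.card ≤ g := (Finset.card_filter_le _ _).trans C.card_special
  have hX : ∀ i, i ∉ X →
      ((∃ u v, ∀ G, C.fn i G ↔ G.Adj u v) ∨ (∀ G, C.fn i G) ∨ (∀ G, ¬ C.fn i G) ∨
      (∃ j k, j < i ∧ k < i ∧ ∀ G, C.fn i G ↔ (C.fn j G ∧ C.fn k G)) ∨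
      (∃ j k, j < i ∧ k < i ∧ ∀ G, C.fn i G ↔ (C.fn j G ∨ C.fn k G))) := by
    intro i hi
    rcases C.gate i with h | h | h | h | h | ⟨h, h'⟩
    · exact Or.inl h
    · exact Or.inr (Or.inl h)
    · exact Or.inr (Or.inr (Or.inl h))
    · exact Or.inr (Or.inr (Or.inr (Or.inl h)))
    · exact Or.inr (Or.inr (Or.inr (Or.inr h)))
    · exact absurd (Finset.mem_filter.2 ⟨h, h'⟩) hi
  choose f hf1 hf2 hf3 using fun β : Finset (Fin s) => exists_program C.fn X hX (fun i => i ∈ β)
  let In : Fin s → Finset (Fin s) := fun i => if h : ∃ S, P i S then h.choose else ∅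
  have hIn : ∀ i, (∃ S, P i S) → P i (In i) := by
    intro i h
    show P i (if h : ∃ S, P i S then h.choose else ∅)
    rw [dif_pos h]
    exact h.choose_spec
  have hInc : ∀ i, (In i).card ≤ ρ := by
    intro i
    by_cases h : ∃ S, P i S
    · exact (hIn i h).1
    · show (if h : ∃ S, P i S then h.choose else ∅).card ≤ ρ
      rw [dif_neg h]
      simp
  let I : Finset (Fin s) := insert out (X.biUnion In)
  have hI : I.card ≤ g * ρ + 1 := by
    refine (Finset.card_insert_le _ _).trans ?_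
    have h1 : (X.biUnion In).card ≤ X.card * ρ :=
      Finset.card_biUnion_le_card_mul _ _ _ fun i _ => hInc i
    have h2 : X.card * ρ ≤ g * ρ := Nat.mul_le_mul_right _ hXc
    omega
  refine ⟨X.powerset ×ˢ I, fun t x => f t.1 t.2 x, ?_, ?_, ?_⟩
  · rw [Finset.card_product, Finset.card_powerset]
    exact Nat.mul_le_mul (Nat.pow_le_pow_right (by norm_num) hXc) hI
  · rintro ⟨β, i⟩ _
    exact ⟨f β, hf1 β, i, i.2, fun x => Iff.rfl⟩
  · intro x y hxy
    -- the values of the special gates at x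
    let β : Finset (Fin s) := X.filter fun i => C.fn i x
    have hβ : β ∈ X.powerset := Finset.mem_powerset.2 (Finset.filter_subset _ _)
    have hβx : ∀ l ∈ X, (C.fn l x ↔ l ∈ β) := by
      intro l hl
      simp [β, hl]
    have hx : ∀ i : Fin s, f β i x ↔ C.fn i x := fun i => hf2 β i x fun l hl _ => hβx l hl
    have hy : ∀ m : ℕ, ∀ l ∈ X, l.1 < m → (C.fn l y ↔ l ∈ β) := by
      intro m
      induction m with
      | zero =>
        intro l _ hl
        omega
      | succ m ih =>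
        intro l hl hlm
        have hP := hIn l (Finset.mem_filter.1 hl).2
        rw [← hβx l hl]
        refine (hP.2.2 y x ?_)
        intro j hj
        have hjl : j < l := hP.2.1 j hj
        have hjl' : j.1 < l.1 := hjl
        have h1 : f β j y ↔ C.fn j y := by
          refine hf2 β j y fun l' hl' hl'j => ih l' hl' ?_
          have : l'.1 ≤ j.1 := hl'j
          omega
        rw [← h1, ← hx j]
        exact (hxy (β, j) (Finset.mem_product.2 ⟨hβ, Finset.mem_insert_of_mem
          (Finset.mem_biUnion.2 ⟨l, hl, hj⟩)⟩)).symm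
    have h1 : f β out y ↔ C.fn out y := hf2 β out y fun l hl _ => hy s l hl l.2
    rw [← h1, ← hx out]
    exact hxy (β, out) (Finset.mem_product.2 ⟨hβ, Finset.mem_insert_self _ _⟩)

end Pool.Agent.H25.NL
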