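import Pool.Agent.H25.NL.Chain

/-!
Random graphs with independent edges: the union of the blocks seldom contains a clique.
-/

namespace Pool.Agent.H25.NL

open Finset

set_option linter.unusedSectionVars false

section

variable {V A₀ : Type} [Fintype V] [DecidableEq V] [Fintype A₀] {n J : ℕ}

/-- The graph with an edge wherever the label lies in `S₀`. -/
def gr (S₀ : Finset A₀) (ω : Sym2 V → A₀) : SimpleGraph V where
  Adj u v := u ≠ v ∧ ω s(u, v) ∈ S₀
  symm := ⟨fun u v h => ⟨h.1.symm, by rw [Sym2.eq_swap]; exact h.2⟩⟩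
  loopless := ⟨fun _ h => h.1 rfl⟩

theorem nc_forall_mem_gen {I : Type} [Fintype I] [DecidableEq I] (I₀ : Finset I)
    (S : I → Finset A₀) :
    nc (fun x : I → A₀ => ∀ i ∈ I₀, x i ∈ S i) * Fintype.card A₀ ^ I₀.card =
      (∏ i ∈ I₀, (S i).card) * Fintype.card A₀ ^ Fintype.card I := by
  classical
  have h1 : (univ.filter fun x : I → A₀ => ∀ i ∈ I₀, x i ∈ S i) =
      Fintype.piFinset fun i => if i ∈ I₀ then S i else univ := by
    ext x
    simp only [mem_filter, mem_univ, true_and, Fintype.mem_piFinset]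
    constructor
    · intro h i
      by_cases hi : i ∈ I₀
      · rw [if_pos hi]
        exact h i hi
      · rw [if_neg hi]
        exact mem_univ _
    · intro h i hi
      have := h i
      rwa [if_pos hi] at this
  rw [nc_eq, h1, Fintype.card_piFinset]
  have h2 : ∀ i, (if i ∈ I₀ then S i else (univ : Finset A₀)).card =
      if i ∈ I₀ then (S i).card else Fintype.card A₀ := by
    intro i
    by_cases hi : i ∈ I₀
    · rw [if_pos hi, if_pos hi]
    · rw [if_neg hi, if_neg hi, card_univ]
  rw [Finset.prod_congr rfl fun i _ => h2 i]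
  rw [Finset.prod_ite]
  have h3 : (univ.filter fun i => i ∈ I₀) = I₀ := by
    ext i
    simp
  rw [h3, Finset.prod_const, mul_assoc, ← pow_add]
  congr 2
  have h4 : (univ.filter fun i => i ∉ I₀) = I₀ᶜ := by
    ext i
    simp
  rw [h4, Finset.card_compl]
  have := Finset.card_le_univ I₀
  omega

theorem nc_forall_mem {I : Type} [Fintype I] [DecidableEq I] (I₀ : Finset I) (S₀ : Finset A₀) :
    nc (fun x : I → A₀ => ∀ i ∈ I₀, x i ∈ S₀) * Fintype.card A₀ ^ I₀.card =
      S₀.card ^ I₀.card * Fintype.card (I → A₀) := by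
  have h := nc_forall_mem_gen I₀ fun _ => S₀
  rw [Finset.prod_const, ← Fintype.card_fun] at h
  exact h

theorem nc_clique_le (φ : Fin J → V ↪ Fin n)
    (hφ : ∀ i j u v u' v', u ≠ v → φ i u = φ j u' → φ i v = φ j v' → i = j)
    (S₀ : Finset A₀) (U : Finset (Fin n)) :
    nc (fun ω : Fin J → (Sym2 V → A₀) => (pre φ (gr S₀) ω J).IsClique U) *
      Fintype.card A₀ ^ (U.card.choose 2) ≤
      S₀.card ^ (U.card.choose 2) * Fintype.card (Fin J → (Sym2 V → A₀)) := by
  classical
  let E : Finset (Sym2 (Fin n)) := U.offDiag.image Sym2.mk.uncurry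
  have hE : E.card = U.card.choose 2 := Sym2.card_image_offDiag U
  have hmem : ∀ x y, s(x, y) ∈ E → x ∈ U ∧ y ∈ U ∧ x ≠ y := by
    intro x y h
    obtain ⟨⟨a, b⟩, hab, h⟩ := Finset.mem_image.1 h
    rw [Finset.mem_offDiag] at hab
    rcases Sym2.eq_iff.1 h with ⟨rfl, rfl⟩ | ⟨rfl, rfl⟩
    · exact hab
    · exact ⟨hab.2.1, hab.1, hab.2.2.symm⟩
  by_cases hcov : ∀ e ∈ E, ∃ g : Fin J × Sym2 V, Sym2.map (φ g.1) g.2 = e
  · choose g hg using hcov
    let g' : {e // e ∈ E} → Fin J × Sym2 V := fun e => g e.1 e.2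
    have hinj : Function.Injective g' := by
      intro a b hab
      have hab' : g a.1 a.2 = g b.1 b.2 := hab
      apply Subtype.ext
      rw [← hg a.1 a.2, ← hg b.1 b.2, hab']
    have hcard : (E.attach.image g').card = U.card.choose 2 := by
      rw [Finset.card_image_of_injective _ hinj, Finset.card_attach, hE]
    have h1 : nc (fun ω : Fin J → (Sym2 V → A₀) => (pre φ (gr S₀) ω J).IsClique U) ≤
        nc (fun ω : Fin J → (Sym2 V → A₀) =>
          ∀ i ∈ E.attach.image g', ((Equiv.curry (Fin J) (Sym2 V) A₀).symm ω) i ∈ S₀) := by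
      refine nc_mono fun ω hω i hi => ?_
      obtain ⟨⟨e, he⟩, _, rfl⟩ := Finset.mem_image.1 hi
      have hge := hg e he
      induction e using Sym2.ind with
      | _ x y =>
        obtain ⟨hx, hy, hxy⟩ := hmem x y he
        obtain ⟨i, _, hadj⟩ := hω hx hy hxy
        rw [SimpleGraph.map_adj] at hadj
        obtain ⟨u, v, huv, hu, hv⟩ := hadj
        show ω (g s(x, y) he).1 (g s(x, y) he).2 ∈ S₀
        generalize hgg : g s(x, y) he = q at hge ⊢
        obtain ⟨j, e'⟩ := q
        simp only at hge ⊢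
        induction e' using Sym2.ind with
        | _ u' v' =>
          rw [Sym2.map_mk, Sym2.eq_iff] at hge
          rcases hge with ⟨h1, h2⟩ | ⟨h1, h2⟩
          · have hij : i = j := hφ i j u v u' v' huv.1 (hu.trans h1.symm) (hv.trans h2.symm)
            subst hij
            have e1 : u = u' := (φ i).injective (hu.trans h1.symm)
            have e2 : v = v' := (φ i).injective (hv.trans h2.symm)
            rw [← e1, ← e2]
            exact huv.2
          · have hij : i = j := hφ i j u v v' u' huv.1 (hu.trans h2.symm) (hv.trans h1.symm)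
            subst hij
            have e1 : u = v' := (φ i).injective (hu.trans h2.symm)
            have e2 : v = u' := (φ i).injective (hv.trans h1.symm)
            rw [← e1, ← e2, Sym2.eq_swap]
            exact huv.2
    have h2 := nc_equiv (Equiv.curry (Fin J) (Sym2 V) A₀).symm
      fun x : Fin J × Sym2 V → A₀ => ∀ i ∈ E.attach.image g', x i ∈ S₀
    have h3 := nc_forall_mem (E.attach.image g') S₀
    rw [hcard] at h3
    have h4 : Fintype.card (Fin J × Sym2 V → A₀) = Fintype.card (Fin J → Sym2 V → A₀) :=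
      Fintype.card_congr (Equiv.curry (Fin J) (Sym2 V) A₀)
    rw [← h4, ← h3, ← h2]
    exact Nat.mul_le_mul_right _ h1
  · push Not at hcov
    obtain ⟨e, he, hcov⟩ := hcov
    rw [nc_false]
    · simp
    · intro ω hω
      induction e using Sym2.ind with
      | _ x y =>
        obtain ⟨hx, hy, hxy⟩ := hmem x y he
        obtain ⟨i, _, hadj⟩ := hω hx hy hxy
        rw [SimpleGraph.map_adj] at hadj
        obtain ⟨u, v, huv, hu, hv⟩ := hadj
        refine hcov (i, s(u, v)) ?_
        rw [Sym2.map_mk, hu, hv]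

theorem nc_not_cliqueFree_le (φ : Fin J → V ↪ Fin n)
    (hφ : ∀ i j u v u' v', u ≠ v → φ i u = φ j u' → φ i v = φ j v' → i = j)
    (S₀ : Finset A₀) (k : ℕ) :
    nc (fun ω : Fin J → (Sym2 V → A₀) => ¬ (pre φ (gr S₀) ω J).CliqueFree k) *
      Fintype.card A₀ ^ (k.choose 2) ≤
      n.choose k * (S₀.card ^ (k.choose 2) * Fintype.card (Fin J → (Sym2 V → A₀))) := by
  classical
  have h1 : nc (fun ω : Fin J → (Sym2 V → A₀) => ¬ (pre φ (gr S₀) ω J).CliqueFree k) ≤
      ∑ U ∈ powersetCard k (univ : Finset (Fin n)),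
        nc (fun ω : Fin J → (Sym2 V → A₀) => (pre φ (gr S₀) ω J).IsClique U) := by
    refine le_trans (nc_mono fun ω hω => ?_) (nc_bex_le _ _)
    unfold SimpleGraph.CliqueFree at hω
    push Not at hω
    obtain ⟨U, hU⟩ := hω
    exact ⟨U, Finset.mem_powersetCard.2 ⟨Finset.subset_univ _, hU.card_eq⟩, hU.isClique⟩
  calc nc (fun ω : Fin J → (Sym2 V → A₀) => ¬ (pre φ (gr S₀) ω J).CliqueFree k) *
      Fintype.card A₀ ^ (k.choose 2)
      ≤ (∑ U ∈ powersetCard k (univ : Finset (Fin n)),
        nc (fun ω : Fin J → (Sym2 V → A₀) => (pre φ (gr S₀) ω J).IsClique U)) *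
        Fintype.card A₀ ^ (k.choose 2) := Nat.mul_le_mul_right _ h1
    _ = ∑ U ∈ powersetCard k (univ : Finset (Fin n)),
        nc (fun ω : Fin J → (Sym2 V → A₀) => (pre φ (gr S₀) ω J).IsClique U) *
        Fintype.card A₀ ^ (k.choose 2) := Finset.sum_mul _ _ _
    _ ≤ ∑ U ∈ powersetCard k (univ : Finset (Fin n)),
        S₀.card ^ (k.choose 2) * Fintype.card (Fin J → (Sym2 V → A₀)) := by
        refine Finset.sum_le_sum fun U hU => ?_
        have hk := (Finset.mem_powersetCard.1 hU).2
        have := nc_clique_le φ hφ S₀ U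
        rwa [hk] at this
    _ = _ := by
        rw [Finset.sum_const, Finset.card_powersetCard, Finset.card_univ, Fintype.card_fin,
          smul_eq_mul]

end

end Pool.Agent.H25.NL
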