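import Mathlib

/-!
Edge-disjoint blocks: lines of an affine plane.
-/

namespace Pool.Agent.H25.NL

open Finset

/-- `q ^ 2` pairwise edge-disjoint copies of the vertex set `V` in `Fin n`. -/
theorem exists_blocks {V : Type} [Fintype V] {n q : ℕ} (hq : q.Prime)
    (hV : Fintype.card V ≤ q) (hn : Fintype.card V * q ≤ n) :
    ∃ φ : Fin (q ^ 2) → V ↪ Fin n, ∀ i j u v u' v', u ≠ v → φ i u = φ j u' → φ i v = φ j v' →
      i = j := by
  classical
  have : Fact q.Prime := ⟨hq⟩
  have : NeZero q := ⟨hq.ne_zero⟩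
  -- coordinates
  let c : V → ZMod q := fun v => ((Fintype.equivFin V v).1 : ZMod q)
  have hc : Function.Injective c := by
    intro u v huv
    have h1 := (ZMod.natCast_eq_natCast_iff' _ _ _).1 huv
    rw [Nat.mod_eq_of_lt, Nat.mod_eq_of_lt] at h1
    · exact (Fintype.equivFin V).injective (Fin.ext h1)
    · exact (Fintype.equivFin V v).2.trans_le hV
    · exact (Fintype.equivFin V u).2.trans_le hV
  -- embedding of the points
  obtain ⟨e⟩ : Nonempty (V × ZMod q ↪ Fin n) := by
    rw [Function.Embedding.nonempty_iff_card_le, Fintype.card_prod, ZMod.card, Fintype.card_fin]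
    exact hn
  obtain ⟨b⟩ : Nonempty (Fin (q ^ 2) ≃ ZMod q × ZMod q) := by
    rw [← Fintype.card_eq]
    rw [Fintype.card_fin, Fintype.card_prod, ZMod.card]
    ring
  refine ⟨fun i => ⟨fun v => e (v, (b i).1 * c v + (b i).2), ?_⟩, ?_⟩
  · intro u v huv
    have := e.injective huv
    exact (Prod.ext_iff.1 this).1
  · intro i j u v u' v' huv h1 h2
    have h1' := Prod.ext_iff.1 (e.injective h1)
    have h2' := Prod.ext_iff.1 (e.injective h2)
    simp only at h1' h2'
    obtain ⟨a1, a2⟩ := h1'
    obtain ⟨b1, b2⟩ := h2'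
    subst a1
    subst b1
    have hne : c u - c v ≠ 0 := sub_ne_zero.2 fun h => huv (hc h)
    have h3 : ((b i).1 - (b j).1) * (c u - c v) = 0 := by linear_combination a2 - b2
    have h4 : (b i).1 = (b j).1 := by
      rcases mul_eq_zero.1 h3 with h | h
      · exact sub_eq_zero.1 h
      · exact absurd h hne
    have h5 : (b i).2 = (b j).2 := by
      rw [h4] at a2
      exact add_left_cancel a2
    exact b.injective (Prod.ext h4 h5)

end Pool.Agent.H25.NL
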