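import Pool.Agent.H25.NL.AsympA

/-!
Circuits with few arbitrary gates for `k`-clique, `k` fixed.
-/

namespace Pool.Agent.H25.NL

open Finset Filter

theorem main_A (δ : ℝ) (hδ : 0 < δ) (hδ1 : δ ≤ 1) (k : ℕ) :
    ∃ n₀ : ℕ, ∀ n ≥ n₀, ∀ s g ρ : ℕ, 1 ≤ ρ → (2 : ℝ) ^ g * ρ ≤ (n : ℝ) ^ (2 - δ) →
      ∀ (C : Circuit n s g ρ) (out : Fin s), (∀ G, C.fn out G ↔ ¬ G.CliqueFree k) →
        (n : ℝ) ^ (δ ^ 2 * k / 144 - 4) ≤ s := by
  set μ := ⌊δ * (k - 1) / 48⌋₊ with hμ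
  by_cases hμ0 : μ = 0
  · -- the exponent is negative
    refine ⟨1, fun n hn s g ρ _ _ C out _ => ?_⟩
    have hs : (1 : ℝ) ≤ s := by
      have := out.pos
      exact_mod_cast this
    have hn1 : (1 : ℝ) ≤ n := by exact_mod_cast hn
    refine le_trans (Real.rpow_le_one_of_one_le_of_nonpos hn1 ?_) hs
    rw [hμ, Nat.floor_eq_zero] at hμ0
    have h1 : δ * (k - 1) < 48 := by linarith
    have h2 : δ ^ 2 * k = δ * (δ * (k - 1)) + δ ^ 2 := by ring
    have h3 : δ * (δ * (k - 1)) ≤ δ * 48 := mul_le_mul_of_nonneg_left h1.le hδ.le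
    have h4 : δ ^ 2 ≤ 1 := by nlinarith
    linarith
  · have hμ1 : 1 ≤ μ := Nat.one_le_iff_ne_zero.2 hμ0
    have hnn : 0 ≤ δ * (k - 1) / 48 := by
      by_contra hcon
      push Not at hcon
      exact hμ0 (Nat.floor_of_nonpos hcon.le)
    have hμk : (48 * μ : ℝ) ≤ δ * (k - 1) := by
      have := Nat.floor_le hnn
      rw [← hμ] at this
      linarith
    have hμlt : δ * (k - 1) / 48 < μ + 1 := by
      have := Nat.lt_floor_add_one (δ * (k - 1) / 48)
      rw [← hμ] at this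
      exact this
    have hev := (asymp_core hδ hδ1 hμ1 hμk).and
      ((ev_log (100 * (k : ℝ) ^ 2) 1 (r := δ / 3) (by positivity)).and (eventually_ge_atTop 2))
    obtain ⟨n₀, hn₀⟩ := eventually_atTop.1 hev
    refine ⟨n₀, fun n hn s g ρ hρ hg C out hC => ?_⟩
    obtain ⟨h1, h2, hn2⟩ := hn₀ n hn
    have hn0 : (0 : ℝ) < n := by
      have : (2 : ℝ) ≤ n := by exact_mod_cast hn2
      linarith
    have hn1 : (1 : ℝ) ≤ n := by
      have : (2 : ℝ) ≤ n := by exact_mod_cast hn2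
      linarith
    by_contra hcon
    push Not at hcon
    have hs : (s : ℝ) ≤ (n : ℝ) ^ (δ * μ / 3 - 3) := by
      refine hcon.le.trans (Real.rpow_le_rpow_of_exponent_le hn1 ?_)
      have h3 : δ * (δ * (k - 1) / 48) ≤ δ * (μ + 1) := mul_le_mul_of_nonneg_left hμlt.le hδ.le
      have h4 : δ ^ 2 ≤ 1 := by nlinarith
      have h5 : δ ^ 2 * k / 144 = δ * (δ * (k - 1) / 48) / 3 + δ ^ 2 / 144 := by ring
      rw [h5]
      linarith
    obtain ⟨T, M, hTc, hM, hsep⟩ := C.exists_monotone_family out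
    have h6 := h1 _ s T M (C.fn out) hs hM hsep hC
    -- the number of special gates
    have hρ1 : (1 : ℝ) ≤ ρ := by exact_mod_cast hρ
    have hlog : 0 ≤ Real.log n := Real.log_nonneg hn1
    have hg2 : (g : ℝ) ≤ 4 * Real.log n := by
      have e1 : (2 : ℝ) ^ g ≤ (n : ℝ) ^ (2 : ℝ) := by
        calc (2 : ℝ) ^ g ≤ (2 : ℝ) ^ g * ρ := le_mul_of_one_le_right (by positivity) hρ1
          _ ≤ (n : ℝ) ^ (2 - δ) := hg
          _ ≤ (n : ℝ) ^ (2 : ℝ) := Real.rpow_le_rpow_of_exponent_le hn1 (by linarith)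
      have e2 := Real.log_le_log (by positivity) e1
      rw [Real.log_pow, Real.log_rpow hn0] at e2
      have e3 : (1 / 2 : ℝ) ≤ Real.log 2 := by
        have := Real.log_two_gt_d9
        linarith
      have e4 : (g : ℝ) * (1 / 2) ≤ g * Real.log 2 := mul_le_mul_of_nonneg_left e3 (by positivity)
      linarith
    have hTR : (T.card : ℝ) ≤ (n : ℝ) ^ (2 - δ) * (4 * (Real.log n + 1)) := by
      have e1 : (T.card : ℝ) ≤ 2 ^ g * (g * ρ + 1) := by exact_mod_cast hTc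
      have e2 : (g : ℝ) * ρ + 1 ≤ ρ * (g + 1) := by
        have : (1 : ℝ) ≤ ρ * 1 := by linarith
        linarith
      calc (T.card : ℝ) ≤ 2 ^ g * (g * ρ + 1) := e1
        _ ≤ 2 ^ g * (ρ * (g + 1)) := mul_le_mul_of_nonneg_left e2 (by positivity)
        _ = (2 ^ g * ρ) * (g + 1) := by ring
        _ ≤ (n : ℝ) ^ (2 - δ) * (4 * (Real.log n + 1)) := by
            refine mul_le_mul hg (by linarith) (by positivity) (by positivity)
    have h7 : (n : ℝ) ^ (2 - 2 * δ / 3) ≤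
        (n : ℝ) ^ (2 - δ) * (96 * (k : ℝ) ^ 2 * (Real.log n + 1)) := by
      calc (n : ℝ) ^ (2 - 2 * δ / 3) ≤ 24 * (k : ℝ) ^ 2 * T.card := h6
        _ ≤ 24 * (k : ℝ) ^ 2 * ((n : ℝ) ^ (2 - δ) * (4 * (Real.log n + 1))) :=
            mul_le_mul_of_nonneg_left hTR (by positivity)
        _ = _ := by ring
    have h8 : (n : ℝ) ^ (2 - 2 * δ / 3) = (n : ℝ) ^ (2 - δ) * (n : ℝ) ^ (δ / 3) := by
      rw [← Real.rpow_add hn0]
      congr 1
      ring
    rw [h8] at h7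
    have h9 : (n : ℝ) ^ (δ / 3) ≤ 96 * (k : ℝ) ^ 2 * (Real.log n + 1) :=
      le_of_mul_le_mul_left h7 (by positivity)
    rw [pow_one] at h2
    have hk0 : (0 : ℝ) < (k : ℝ) ^ 2 := by
      rcases Nat.eq_zero_or_pos k with h | h
      · exfalso
        rw [h] at hμk
        have : (1 : ℝ) ≤ μ := by exact_mod_cast hμ1
        norm_num at hμk
        linarith
      · have : (0 : ℝ) < k := by exact_mod_cast h
        positivity
    have h10 : (0 : ℝ) < (k : ℝ) ^ 2 * (Real.log n + 1) := by positivity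
    nlinarith

end Pool.Agent.H25.NL
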