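import Pool.Agent.H25.NL.Planted

/-!
Second moment computation for families of cliques with small links.
-/

namespace Pool.Agent.H25.NL

open Finset

set_option linter.unusedSectionVars false

section

variable {V : Type} [Fintype V] [DecidableEq V]

/-- The edges inside a set of vertices. -/
def ed (T : Finset V) : Finset (Sym2 V) := T.offDiag.image Sym2.mk.uncurry

theorem card_ed (T : Finset V) : (ed T).card = T.card.choose 2 := Sym2.card_image_offDiag T

theorem mem_ed {T : Finset V} {u v : V} : s(u, v) ∈ ed T ↔ u ≠ v ∧ u ∈ T ∧ v ∈ T := by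
  unfold ed
  rw [Finset.mem_image]
  constructor
  · rintro ⟨⟨a, b⟩, hab, h⟩
    rw [Finset.mem_offDiag] at hab
    rcases Sym2.eq_iff.1 h with ⟨rfl, rfl⟩ | ⟨rfl, rfl⟩
    · exact ⟨hab.2.2, hab.1, hab.2.1⟩
    · exact ⟨hab.2.2.symm, hab.2.1, hab.1⟩
  · rintro ⟨h1, h2, h3⟩
    exact ⟨(u, v), Finset.mem_offDiag.2 ⟨h2, h3, h1⟩, rfl⟩

theorem ed_mono {T T' : Finset V} (h : T ⊆ T') : ed T ⊆ ed T' := by
  intro e he
  induction e using Sym2.ind with
  | _ u v =>
    rw [mem_ed] at he ⊢
    exact ⟨he.1, h he.2.1, h he.2.2⟩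

theorem ed_inter (T T' : Finset V) : ed T ∩ ed T' = ed (T ∩ T') := by
  ext e
  induction e using Sym2.ind with
  | _ u v =>
    rw [Finset.mem_inter, mem_ed, mem_ed, mem_ed, Finset.mem_inter, Finset.mem_inter]
    tauto

theorem card_ed_sdiff {T B : Finset V} (h : B ⊆ T) :
    (ed T \ ed B).card = T.card.choose 2 - B.card.choose 2 := by
  rw [Finset.card_sdiff_of_subset (ed_mono h), card_ed, card_ed]

theorem choose_two_mono {a b : ℕ} (h : a ≤ b) : a.choose 2 ≤ b.choose 2 :=
  Nat.choose_le_choose 2 h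

theorem card_union_ed {T T' B : Finset V} (h : B ⊆ T) (h' : B ⊆ T') {b : ℕ} (hT : T.card = b)
    (hT' : T'.card = b) :
    ((ed T \ ed B) ∪ (ed T' \ ed B)).card + ((T ∩ T').card.choose 2 - B.card.choose 2) =
      2 * (b.choose 2 - B.card.choose 2) := by
  have h1 := Finset.card_union_add_card_inter (ed T \ ed B) (ed T' \ ed B)
  have h2 : (ed T \ ed B) ∩ (ed T' \ ed B) = ed (T ∩ T') \ ed B := by
    rw [← ed_inter]
    ext e
    simp only [Finset.mem_inter, Finset.mem_sdiff]
    tauto
  rw [h2, card_ed_sdiff (Finset.subset_inter h h'), card_ed_sdiff h, card_ed_sdiff h', hT, hT'] at h1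
  omega

/-- the link sum -/
theorem link_sum_le (Fm : Finset (Finset V)) (B : Finset V) (b : ℕ) {q Λ : ℝ} (hq : 1 ≤ q)
    (hΛ : 1 ≤ Λ) (hF : ∀ T ∈ Fm, T.card = b ∧ B ⊆ T)
    (hmax : ∀ C, B ⊂ C → C.card ≤ b → ((Fm.filter fun T => C ⊆ T).card : ℝ) ≤
      Λ ^ (b - C.card) * q ^ (b.choose 2 - C.card.choose 2))
    (hbig : Λ ^ (b - B.card) * q ^ (b.choose 2 - B.card.choose 2) ≤ Fm.card)
    (h32 : (1 + 1 / Λ) ^ (b - B.card) ≤ 3 / 2) {T : Finset V} (hT : T ∈ Fm) :
    ∑ T' ∈ Fm, q ^ ((T ∩ T').card.choose 2 - B.card.choose 2) ≤ 3 / 2 * Fm.card := by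
  have hTb := hF T hT
  have hBb : B.card ≤ b := hTb.1 ▸ Finset.card_le_card hTb.2
  have hq0 : (0 : ℝ) < q := by linarith
  have hΛ0 : (0 : ℝ) < Λ := by linarith
  have hTB : (T \ B).card = b - B.card := by
    rw [Finset.card_sdiff_of_subset hTb.2, hTb.1]
  -- fiberwise
  have h1 : ∑ T' ∈ Fm, q ^ ((T ∩ T').card.choose 2 - B.card.choose 2) =
      ∑ C ∈ (T \ B).powerset, ∑ T' ∈ Fm.filter (fun T' => (T ∩ T') \ B = C),
        q ^ ((T ∩ T').card.choose 2 - B.card.choose 2) := by
    rw [Finset.sum_fiberwise_of_maps_to]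
    intro T' _
    rw [Finset.mem_powerset]
    exact Finset.sdiff_subset_sdiff Finset.inter_subset_left (Finset.Subset.refl _)
  rw [h1]
  have h2 : ∀ C ∈ (T \ B).powerset, ∑ T' ∈ Fm.filter (fun T' => (T ∩ T') \ B = C),
        q ^ ((T ∩ T').card.choose 2 - B.card.choose 2) ≤
      (if C = ∅ then (Fm.card : ℝ) - Λ ^ (b - B.card) * q ^ (b.choose 2 - B.card.choose 2) else 0) +
        q ^ (b.choose 2 - B.card.choose 2) * (1 ^ C.card * Λ ^ (b - B.card - C.card)) := by
    intro C hC
    rw [Finset.mem_powerset] at hC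
    by_cases hC0 : C = ∅
    · rw [if_pos hC0, hC0, Finset.card_empty, pow_zero, one_mul, Nat.sub_zero]
      have h3 : ∀ T' ∈ Fm.filter (fun T' => (T ∩ T') \ B = ∅),
          q ^ ((T ∩ T').card.choose 2 - B.card.choose 2) ≤ 1 := by
        intro T' hT'
        rw [Finset.mem_filter, Finset.sdiff_eq_empty_iff_subset] at hT'
        have : (T ∩ T').card ≤ B.card := Finset.card_le_card hT'.2
        rw [Nat.sub_eq_zero_of_le (choose_two_mono this), pow_zero]
      have h4 : ((Fm.filter (fun T' => (T ∩ T') \ B = ∅)).card : ℝ) ≤ Fm.card := by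
        exact_mod_cast Finset.card_filter_le _ _
      have h5 := Finset.sum_le_sum h3
      rw [Finset.sum_const, nsmul_eq_mul, mul_one] at h5
      linarith
    · rw [if_neg hC0, zero_add, one_pow, one_mul]
      have hdisj : Disjoint B C := by
        rw [Finset.disjoint_right]
        intro x hx
        exact (Finset.mem_sdiff.1 (hC hx)).2
      have hcard : (B ∪ C).card = B.card + C.card := Finset.card_union_of_disjoint hdisj
      have hsubT : B ∪ C ⊆ T :=
        Finset.union_subset hTb.2 (hC.trans Finset.sdiff_subset)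
      have hle : (B ∪ C).card ≤ b := hTb.1 ▸ Finset.card_le_card hsubT
      have hss : B ⊂ B ∪ C := by
        refine Finset.ssubset_iff_subset_ne.2 ⟨Finset.subset_union_left, fun h => hC0 ?_⟩
        have : C ⊆ B := by
          rw [h]
          exact Finset.subset_union_right
        exact Finset.disjoint_self_iff_empty C |>.1 (hdisj.mono_left this)
      have h3 : ∀ T' ∈ Fm.filter (fun T' => (T ∩ T') \ B = C),
          q ^ ((T ∩ T').card.choose 2 - B.card.choose 2) ≤
            q ^ ((B ∪ C).card.choose 2 - B.card.choose 2) := by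
        intro T' hT'
        rw [Finset.mem_filter] at hT'
        have : T ∩ T' ⊆ B ∪ C := by
          intro x hx
          by_cases hxB : x ∈ B
          · exact Finset.mem_union_left _ hxB
          · rw [← hT'.2]
            exact Finset.mem_union_right _ (Finset.mem_sdiff.2 ⟨hx, hxB⟩)
        exact pow_le_pow_right₀ hq (Nat.sub_le_sub_right
          (choose_two_mono (Finset.card_le_card this)) _)
      have h4 : ((Fm.filter (fun T' => (T ∩ T') \ B = C)).card : ℝ) ≤
          (Fm.filter fun T' => B ∪ C ⊆ T').card := by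
        refine Nat.cast_le.2 (Finset.card_le_card fun T' hT' => ?_)
        rw [Finset.mem_filter] at hT' ⊢
        refine ⟨hT'.1, Finset.union_subset (hF T' hT'.1).2 ?_⟩
        rw [← hT'.2]
        exact Finset.sdiff_subset.trans Finset.inter_subset_right
      have h5 := Finset.sum_le_sum h3
      rw [Finset.sum_const, nsmul_eq_mul] at h5
      have h6 := hmax (B ∪ C) hss hle
      have hexp : (b.choose 2 - (B ∪ C).card.choose 2) + ((B ∪ C).card.choose 2 - B.card.choose 2)
          = b.choose 2 - B.card.choose 2 := by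
        have a1 := choose_two_mono hle
        have a2 := choose_two_mono (Finset.card_le_card hss.subset)
        omega
      have hexp2 : b - (B ∪ C).card = b - B.card - C.card := by
        rw [hcard]
        omega
      calc _ ≤ ((Fm.filter (fun T' => (T ∩ T') \ B = C)).card : ℝ) *
            q ^ ((B ∪ C).card.choose 2 - B.card.choose 2) := h5
        _ ≤ (Λ ^ (b - (B ∪ C).card) * q ^ (b.choose 2 - (B ∪ C).card.choose 2)) *
            q ^ ((B ∪ C).card.choose 2 - B.card.choose 2) :=
            mul_le_mul_of_nonneg_right (h4.trans h6) (by positivity)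
        _ = _ := by
            rw [mul_assoc, ← pow_add, hexp, hexp2]
            ring
  refine (Finset.sum_le_sum h2).trans ?_
  rw [Finset.sum_add_distrib, Finset.sum_ite_eq' (T \ B).powerset ∅,
    if_pos (Finset.empty_mem_powerset _), ← Finset.mul_sum]
  have h7 : ∑ C ∈ (T \ B).powerset, ((1 : ℝ) ^ C.card * Λ ^ (b - B.card - C.card)) =
      (1 + Λ) ^ (b - B.card) := by
    rw [← hTB]
    exact Finset.sum_pow_mul_eq_add_pow 1 Λ (T \ B)
  rw [h7]
  have h8 : (1 + Λ) ^ (b - B.card) = Λ ^ (b - B.card) * (1 + 1 / Λ) ^ (b - B.card) := by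
    rw [← mul_pow]
    congr 1
    field_simp
    ring
  rw [h8]
  have h9 : q ^ (b.choose 2 - B.card.choose 2) * (Λ ^ (b - B.card) * (1 + 1 / Λ) ^ (b - B.card)) ≤
      q ^ (b.choose 2 - B.card.choose 2) * (Λ ^ (b - B.card) * (3 / 2)) := by gcongr
  have h10 : (0 : ℝ) ≤ Λ ^ (b - B.card) * q ^ (b.choose 2 - B.card.choose 2) := by positivity
  nlinarith

end

end Pool.Agent.H25.NL
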