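import Mathlib

/-!
Monotone straight-line programs on graphs: monotonicity and restriction to a block.
-/

namespace Pool.Agent.H25.NL

/-- Gate number `i` of the sequence `f` is an edge test, a constant, or the conjunction or
disjunction of two earlier members. -/
def MGate {V : Type} (f : ℕ → SimpleGraph V → Prop) (i : ℕ) : Prop :=
  (∃ u v, ∀ x, f i x ↔ x.Adj u v) ∨ (∀ x, f i x) ∨ (∀ x, ¬ f i x) ∨
  (∃ j k, j < i ∧ k < i ∧ ∀ x, f i x ↔ (f j x ∧ f k x)) ∨
  (∃ j k, j < i ∧ k < i ∧ ∀ x, f i x ↔ (f j x ∨ f k x))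

/-- `F` is computed by a monotone straight-line program with `s` gates. -/
def MonoSize {V : Type} (s : ℕ) (F : SimpleGraph V → Prop) : Prop :=
  ∃ f : ℕ → SimpleGraph V → Prop, (∀ i < s, MGate f i) ∧ ∃ i < s, ∀ x, F x ↔ f i x

variable {V U : Type}

theorem MGate.mono {f : ℕ → SimpleGraph V → Prop} {s : ℕ} (h : ∀ i < s, MGate f i)
    {x y : SimpleGraph V} (hxy : x ≤ y) : ∀ i < s, f i x → f i y := by
  intro i
  induction i using Nat.strong_induction_on with
  | _ i ih =>
    intro hi hx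
    rcases h i hi with ⟨u, v, h1⟩ | h1 | h1 | ⟨j, k, hj, hk, h1⟩ | ⟨j, k, hj, hk, h1⟩
    · rw [h1] at hx ⊢
      exact hxy hx
    · exact h1 y
    · exact absurd hx (h1 x)
    · rw [h1] at hx ⊢
      exact ⟨ih j hj (hj.trans hi) hx.1, ih k hk (hk.trans hi) hx.2⟩
    · rw [h1] at hx ⊢
      rcases hx with hx | hx
      · exact Or.inl (ih j hj (hj.trans hi) hx)
      · exact Or.inr (ih k hk (hk.trans hi) hx)

theorem MonoSize.mono {s : ℕ} {F : SimpleGraph V → Prop} (h : MonoSize s F)
    {x y : SimpleGraph V} (hxy : x ≤ y) (hx : F x) : F y := by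
  obtain ⟨f, hf, i, hi, hF⟩ := h
  rw [hF] at hx ⊢
  exact MGate.mono hf hxy i hi hx

theorem MonoSize.restrict {s : ℕ} {F : SimpleGraph U → Prop} (h : MonoSize s F)
    (φ : V ↪ U) (G : SimpleGraph U) : MonoSize s (fun x : SimpleGraph V => F (G ⊔ x.map φ)) := by
  classical
  obtain ⟨f, hf, i, hi, hF⟩ := h
  refine ⟨fun i x => f i (G ⊔ x.map φ), ?_, i, hi, fun x => hF _⟩
  intro i hi
  rcases hf i hi with ⟨u, v, h1⟩ | h1 | h1 | ⟨j, k, hj, hk, h1⟩ | ⟨j, k, hj, hk, h1⟩
  · by_cases hG : G.Adj u v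
    · refine Or.inr (Or.inl fun x => ?_)
      show f i (G ⊔ x.map φ)
      rw [h1]
      exact Or.inl hG
    · by_cases hu : ∃ u', φ u' = u
      · by_cases hv : ∃ v', φ v' = v
        · obtain ⟨u', hu'⟩ := hu
          obtain ⟨v', hv'⟩ := hv
          refine Or.inl ⟨u', v', fun x => ?_⟩
          show f i (G ⊔ x.map φ) ↔ _
          rw [h1]
          rw [SimpleGraph.sup_adj, SimpleGraph.map_adj]
          constructor
          · rintro (h | ⟨a, b, hab, ha, hb⟩)
            · exact absurd h hG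
            · have e1 : a = u' := φ.injective (ha.trans hu'.symm)
              have e2 : b = v' := φ.injective (hb.trans hv'.symm)
              rw [← e1, ← e2]
              exact hab
          · intro h
            exact Or.inr ⟨u', v', h, hu', hv'⟩
        · refine Or.inr (Or.inr (Or.inl fun x => ?_))
          show ¬ f i (G ⊔ x.map φ)
          rw [h1, SimpleGraph.sup_adj, SimpleGraph.map_adj]
          rintro (h | ⟨a, b, hab, ha, hb⟩)
          · exact hG h
          · exact hv ⟨b, hb⟩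
      · refine Or.inr (Or.inr (Or.inl fun x => ?_))
        show ¬ f i (G ⊔ x.map φ)
        rw [h1, SimpleGraph.sup_adj, SimpleGraph.map_adj]
        rintro (h | ⟨a, b, hab, ha, hb⟩)
        · exact hG h
        · exact hu ⟨a, ha⟩
  · exact Or.inr (Or.inl fun x => h1 _)
  · exact Or.inr (Or.inr (Or.inl fun x => h1 _))
  · exact Or.inr (Or.inr (Or.inr (Or.inl ⟨j, k, hj, hk, fun x => h1 _⟩)))
  · exact Or.inr (Or.inr (Or.inr (Or.inr ⟨j, k, hj, hk, fun x => h1 _⟩)))

end Pool.Agent.H25.NL
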