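import Pool.Agent.H25.NL.Clique

/-!
Positive test graphs: a clique with one vertex in each of `k` groups of `w` vertices.
-/

namespace Pool.Agent.H25.NL

open Finset

/-- The vertex set of the planted clique. -/
def tr {k w : ℕ} (p : Fin k → Fin w) : Finset (Fin k × Fin w) := univ.image fun i => (i, p i)

theorem mem_tr {k w : ℕ} {p : Fin k → Fin w} {x : Fin k × Fin w} : x ∈ tr p ↔ p x.1 = x.2 := by
  unfold tr
  rw [Finset.mem_image]
  constructor
  · rintro ⟨i, _, rfl⟩
    rfl
  · intro h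
    exact ⟨x.1, Finset.mem_univ _, Prod.ext rfl h⟩

theorem card_tr {k w : ℕ} (p : Fin k → Fin w) : (tr p).card = k := by
  unfold tr
  rw [Finset.card_image_of_injective, Finset.card_univ, Fintype.card_fin]
  intro i j h
  exact (Prod.ext_iff.1 h).1

theorem nc_forall_eq {I A : Type} [Fintype I] [DecidableEq I] [Fintype A] (I₀ : Finset I)
    (c : I → A) : nc (fun x : I → A => ∀ i ∈ I₀, x i = c i) * Fintype.card A ^ I₀.card =
      Fintype.card A ^ Fintype.card I := by
  classical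
  have h := nc_forall_mem_gen I₀ fun i => ({c i} : Finset A)
  have h2 : nc (fun x : I → A => ∀ i ∈ I₀, x i = c i) =
      nc (fun x : I → A => ∀ i ∈ I₀, x i ∈ ({c i} : Finset A)) :=
    nc_congr fun x => by simp only [Finset.mem_singleton]
  rw [h2]
  simpa using h

theorem nc_subset_tr {k w : ℕ} (T : Finset (Fin k × Fin w)) :
    nc (fun p : Fin k → Fin w => T ⊆ tr p) * w ^ T.card ≤ Fintype.card (Fin k → Fin w) := by
  classical
  by_cases h : ∃ p₀ : Fin k → Fin w, T ⊆ tr p₀
  · obtain ⟨p₀, hp₀⟩ := h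
    have hinj : Set.InjOn Prod.fst (T : Set (Fin k × Fin w)) := by
      intro x hx y hy hxy
      have h1 := mem_tr.1 (hp₀ hx)
      have h2 := mem_tr.1 (hp₀ hy)
      refine Prod.ext hxy ?_
      rw [← h1, ← h2, hxy]
    have hc : (T.image Prod.fst).card = T.card := Finset.card_image_of_injOn hinj
    have h1 := nc_forall_eq (T.image Prod.fst) p₀
    rw [hc, Fintype.card_fin, Fintype.card_fin] at h1
    have h2 : Fintype.card (Fin k → Fin w) = w ^ k := by simp
    rw [h2, ← h1]
    refine Nat.mul_le_mul_right _ (nc_mono fun p hp i hi => ?_)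
    obtain ⟨x, hx, rfl⟩ := Finset.mem_image.1 hi
    rw [mem_tr.1 (hp hx), mem_tr.1 (hp₀ hx)]
  · rw [nc_false fun p hp => h ⟨p, hp⟩]
    simp

theorem planted_not_cliqueFree {k w n : ℕ} (φ : Fin k × Fin w ↪ Fin n) (p : Fin k → Fin w)
    (G : SimpleGraph (Fin n)) : ¬ (G ⊔ (cq (tr p)).map φ).CliqueFree k := by
  classical
  intro h
  refine h ((tr p).map φ) ⟨?_, ?_⟩
  · intro x hx y hy hxy
    rw [Finset.mem_coe, Finset.mem_map] at hx hy
    obtain ⟨u, hu, rfl⟩ := hx
    obtain ⟨v, hv, rfl⟩ := hy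
    refine Or.inr ?_
    rw [SimpleGraph.map_adj]
    exact ⟨u, v, ⟨fun huv => hxy (by rw [huv]), hu, hv⟩, rfl, rfl⟩
  · rw [Finset.card_map, card_tr]

theorem not_cliqueFree_mono {n k : ℕ} (x y : SimpleGraph (Fin n)) (h : x ≤ y)
    (hx : ¬ x.CliqueFree k) : ¬ y.CliqueFree k :=
  fun hy => hx (hy.anti h)

end Pool.Agent.H25.NL
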