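import Pool.Agent.H25.NL.Sparse
import Pool.Agent.H25.NL.Lines
import Pool.Agent.H25.NL.Circuit

/-!
The finite form of the bound for sparse test graphs.
-/

namespace Pool.Agent.H25.NL

open Finset

set_option linter.unusedSectionVars false

theorem two_mul_choose_two (b : ℕ) : 2 * b.choose 2 = (b - 1) * b := by
  rw [Nat.choose_two_right, Nat.mul_div_cancel']
  · ring
  · rcases Nat.even_or_odd b with h | h
    · exact Dvd.dvd.mul_right h.two_dvd _
    · obtain ⟨c, rfl⟩ := h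
      exact Dvd.dvd.mul_left (by simp) _

theorem card_zset_mul_ge (L Q : ℕ) [NeZero Q] (hL : 1 ≤ L) :
    Q ^ L ≤ (zset L Q).card * Q := by
  classical
  have h1 := nc_forall_eq (A := Fin Q) ({(⟨0, hL⟩ : Fin L)} : Finset (Fin L)) fun _ => 0
  rw [Finset.card_singleton, pow_one, Fintype.card_fin, Fintype.card_fin] at h1
  rw [← h1]
  refine Nat.mul_le_mul_right _ ?_
  unfold zset
  rw [← nc_eq]
  exact nc_mono fun x hx => ⟨_, hx _ (Finset.mem_singleton_self _)⟩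

theorem card_zset_mul_le (L Q : ℕ) [NeZero Q] : (zset L Q).card * Q ≤ L * Q ^ L := by
  classical
  have h1 : (zset L Q).card ≤ ∑ l : Fin L, nc (fun x : Fin L → Fin Q => x l = 0) := by
    unfold zset
    rw [← nc_eq]
    refine le_trans (nc_mono fun x hx => ?_) (nc_bex_le univ fun (l : Fin L)
      (x : Fin L → Fin Q) => x l = 0)
    obtain ⟨l, hl⟩ := hx
    exact ⟨l, Finset.mem_univ _, hl⟩
  have h2 : ∀ l : Fin L, nc (fun x : Fin L → Fin Q => x l = 0) * Q = Q ^ L := by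
    intro l
    have h1 := nc_forall_eq (A := Fin Q) ({l} : Finset (Fin L)) fun _ => 0
    rw [Finset.card_singleton, pow_one, Fintype.card_fin, Fintype.card_fin] at h1
    rw [← h1]
    congr 1
    exact nc_congr fun x => by simp
  calc (zset L Q).card * Q ≤ (∑ l : Fin L, nc (fun x : Fin L → Fin Q => x l = 0)) * Q :=
        Nat.mul_le_mul_right _ h1
    _ = ∑ l : Fin L, Q ^ L := by
        rw [Finset.sum_mul]
        exact Finset.sum_congr rfl fun l _ => h2 l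
    _ = L * Q ^ L := by
        rw [Finset.sum_const, Finset.card_univ, Fintype.card_fin, smul_eq_mul]

theorem small_le (V : Type) [Fintype V] (m : ℕ) : small V m ≤ (Fintype.card V + 1) ^ m := by
  classical
  unfold small
  -- a set with at most m elements is the range of a function from Fin m to Option V
  have h : ((univ : Finset (Finset V)).filter fun T => T.card ≤ m) ⊆
      (univ : Finset (Fin m → Option V)).image
        fun f => (univ : Finset V).filter fun v => ∃ i, f i = some v := by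
    intro T hT
    have hT := (Finset.mem_filter.1 hT).2
    rw [Finset.mem_image]
    refine ⟨fun i => if h : i.1 < T.card then some ((T.equivFin.symm ⟨i.1, h⟩ : T) : V) else none,
      Finset.mem_univ _, ?_⟩
    ext v
    rw [Finset.mem_filter]
    constructor
    · rintro ⟨_, i, hi⟩
      beta_reduce at hi
      by_cases h : i.1 < T.card
      · rw [dif_pos h, Option.some.injEq] at hi
        rw [← hi]
        exact (T.equivFin.symm ⟨i.1, h⟩).2
      · rw [dif_neg h] at hi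
        exact absurd hi (by simp)
    · intro hv
      refine ⟨Finset.mem_univ _, ⟨(T.equivFin ⟨v, hv⟩).1, (T.equivFin ⟨v, hv⟩).2.trans_le hT⟩, ?_⟩
      simp
  refine (Finset.card_le_card h).trans (Finset.card_image_le.trans ?_)
  rw [Finset.card_univ, Fintype.card_fun, Fintype.card_fin, Fintype.card_option]

section

variable {k w L Q : ℕ} [NeZero Q]

/-- the sparse test graphs satisfy the hypotheses of the block lemma -/
theorem blockHyp_sparse (μ : ℕ) (hL : 1 ≤ L) (hw : 1 ≤ w) {Λ : ℝ} (hΛ : 1 ≤ Λ)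
    (h32 : (1 + 1 / Λ) ^ (4 * μ) ≤ 3 / 2) (hc : 4 * Λ ^ 2 * (Q : ℝ) ^ (4 * μ) ≤ w) :
    BlockHyp (gr (zset L Q) : (Sym2 (Fin k × Fin w) → (Fin L → Fin Q)) →
      SimpleGraph (Fin k × Fin w)) (tr : (Fin k → Fin w) → Finset (Fin k × Fin w)) (3 ^ L)
      (4 * μ) w (fun b => Λ ^ b * (Q : ℝ) ^ b.choose 2) (1 / (w : ℝ) ^ μ) where
  hM := by positivity
  hw := hw
  hη := by positivity
  hN0 := fun b => by
    have : (0 : ℝ) ≤ Λ := by linarith
    positivity
  hP := fun T _ => by exact_mod_cast nc_subset_tr T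
  hN := fun S hS h0 b hb => card_mins_sparse L Q (4 * μ) hΛ h32 S hS h0 b hb
  hQ := by
    intro T hT1 hTm
    have hQ1 : (1 : ℝ) ≤ Q := by
      exact_mod_cast Nat.one_le_iff_ne_zero.2 (NeZero.ne Q)
    have hQ0 : (0 : ℝ) < Q := by linarith
    have hΛ0 : (0 : ℝ) < Λ := by linarith
    have hw0 : (0 : ℝ) < w := by exact_mod_cast hw
    set b := T.card with hb
    set e := b.choose 2 with he
    -- containing a fixed clique
    have h1 : (Fintype.card (Sym2 (Fin k × Fin w) → (Fin L → Fin Q)) : ℝ) ≤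
        nc (fun ω : Sym2 (Fin k × Fin w) → (Fin L → Fin Q) => cq T ≤ gr (zset L Q) ω) *
          (Q : ℝ) ^ e := by
      have g1 := nc_forall_mem (I := Sym2 (Fin k × Fin w)) (ed T) (zset L Q)
      rw [card_ed, ← hb, ← he, Fintype.card_fun (α := Fin L), Fintype.card_fin,
        Fintype.card_fin] at g1
      have g2 : nc (fun x : Sym2 (Fin k × Fin w) → (Fin L → Fin Q) =>
          ∀ i ∈ ed T, x i ∈ zset L Q) ≤
          nc (fun ω : Sym2 (Fin k × Fin w) → (Fin L → Fin Q) => cq T ≤ gr (zset L Q) ω) := by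
        refine nc_mono fun ω hω u v huv => ⟨huv.1, hω _ (mem_ed.2 huv)⟩
      have g3 := Nat.pow_le_pow_left (card_zset_mul_ge L Q hL) e
      have hQL : 0 < (Q ^ L) ^ e := by
        have : 0 < Q := Nat.pos_of_ne_zero (NeZero.ne Q)
        positivity
      have g4 : Fintype.card (Sym2 (Fin k × Fin w) → (Fin L → Fin Q)) ≤
          nc (fun ω : Sym2 (Fin k × Fin w) → (Fin L → Fin Q) => cq T ≤ gr (zset L Q) ω) *
            Q ^ e := by
        refine Nat.le_of_mul_le_mul_left ?_ hQL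
        calc (Q ^ L) ^ e * Fintype.card (Sym2 (Fin k × Fin w) → (Fin L → Fin Q))
            ≤ ((zset L Q).card * Q) ^ e *
              Fintype.card (Sym2 (Fin k × Fin w) → (Fin L → Fin Q)) :=
              Nat.mul_le_mul_right _ g3
          _ = (nc (fun x : Sym2 (Fin k × Fin w) → (Fin L → Fin Q) =>
              ∀ i ∈ ed T, x i ∈ zset L Q) * (Q ^ L) ^ e) * Q ^ e := by
              rw [g1, mul_pow]
              ring
          _ ≤ (nc (fun ω : Sym2 (Fin k × Fin w) → (Fin L → Fin Q) =>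
              cq T ≤ gr (zset L Q) ω) * (Q ^ L) ^ e) * Q ^ e :=
              Nat.mul_le_mul_right _ (Nat.mul_le_mul_right _ g2)
          _ = _ := by ring
      exact_mod_cast g4
    have h2 : (2 * Λ * (Q : ℝ) ^ (b - 1)) ^ b ≤ (w : ℝ) ^ b := by
      refine pow_le_pow_left₀ (by positivity) ?_ b
      refine le_trans ?_ hc
      have g1 : (Q : ℝ) ^ (b - 1) ≤ (Q : ℝ) ^ (4 * μ) := pow_le_pow_right₀ hQ1 (by omega)
      have g2 : 2 * Λ ≤ 4 * Λ ^ 2 := by nlinarith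
      exact mul_le_mul g2 g1 (by positivity) (by positivity)
    have h3 : Λ ^ b * (Q : ℝ) ^ e * 2 ^ b * (Q : ℝ) ^ e = (2 * Λ * (Q : ℝ) ^ (b - 1)) ^ b := by
      have : (Q : ℝ) ^ e * (Q : ℝ) ^ e = ((Q : ℝ) ^ (b - 1)) ^ b := by
        rw [← pow_add, ← pow_mul, ← two_mul_choose_two, ← he, two_mul]
      rw [mul_pow, mul_pow, ← this]
      ring
    calc Λ ^ b * (Q : ℝ) ^ e * 2 ^ b * Fintype.card (Sym2 (Fin k × Fin w) → (Fin L → Fin Q))
        ≤ Λ ^ b * (Q : ℝ) ^ e * 2 ^ b *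
          (nc (fun ω : Sym2 (Fin k × Fin w) → (Fin L → Fin Q) => cq T ≤ gr (zset L Q) ω) *
          (Q : ℝ) ^ e) := mul_le_mul_of_nonneg_left h1 (by positivity)
      _ = (2 * Λ * (Q : ℝ) ^ (b - 1)) ^ b *
          nc (fun ω : Sym2 (Fin k × Fin w) → (Fin L → Fin Q) => cq T ≤ gr (zset L Q) ω) := by
          rw [← h3]
          ring
      _ ≤ _ := mul_le_mul_of_nonneg_right h2 (by positivity)
  hE := by
    have hQ1 : (1 : ℝ) ≤ Q := by
      exact_mod_cast Nat.one_le_iff_ne_zero.2 (NeZero.ne Q)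
    have hQ0 : (0 : ℝ) < Q := by linarith
    have hΛ0 : (0 : ℝ) < Λ := by linarith
    have hw0 : (0 : ℝ) < w := by exact_mod_cast hw
    have hw1 : (1 : ℝ) ≤ w := by exact_mod_cast hw
    have h1 : ∀ b ∈ Finset.Ioc (4 * μ / 2) (4 * μ), Λ ^ b * (Q : ℝ) ^ b.choose 2 / (w : ℝ) ^ b ≤
        (1 / 2 : ℝ) ^ b * (1 / (w : ℝ) ^ μ) := by
      intro b hb
      rw [Finset.mem_Ioc] at hb
      have hb1 : 2 * μ < b := by omega
      have g1 : (Λ ^ b * (Q : ℝ) ^ b.choose 2) ^ 2 ≤ ((w : ℝ) / 4) ^ b := by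
        have : (Λ ^ b * (Q : ℝ) ^ b.choose 2) ^ 2 = (Λ ^ 2 * (Q : ℝ) ^ (b - 1)) ^ b := by
          rw [mul_pow, ← pow_mul, ← pow_mul, mul_comm (b.choose 2) 2, two_mul_choose_two,
            pow_mul (Q : ℝ) (b - 1) b, mul_comm b 2, pow_mul Λ 2 b, mul_pow]
        rw [this]
        refine pow_le_pow_left₀ (by positivity) ?_ b
        have g2 : (Q : ℝ) ^ (b - 1) ≤ (Q : ℝ) ^ (4 * μ) := pow_le_pow_right₀ hQ1 (by omega)
        have g3 : Λ ^ 2 * (Q : ℝ) ^ (b - 1) ≤ Λ ^ 2 * (Q : ℝ) ^ (4 * μ) :=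
          mul_le_mul_of_nonneg_left g2 (by positivity)
        linarith
      have g4 : (Λ ^ b * (Q : ℝ) ^ b.choose 2 / (w : ℝ) ^ b) ^ 2 ≤
          ((1 / 2 : ℝ) ^ b * (1 / (w : ℝ) ^ μ)) ^ 2 := by
        rw [div_pow]
        have hw2 : (w : ℝ) ^ (2 * μ) ≤ (w : ℝ) ^ b := pow_le_pow_right₀ hw1 hb1.le
        calc (Λ ^ b * (Q : ℝ) ^ b.choose 2) ^ 2 / ((w : ℝ) ^ b) ^ 2
            ≤ ((w : ℝ) / 4) ^ b / ((w : ℝ) ^ b) ^ 2 :=
              div_le_div_of_nonneg_right g1 (by positivity)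
          _ = (1 / 4 : ℝ) ^ b / (w : ℝ) ^ b := by
              rw [div_pow, div_pow, one_pow]
              field_simp
          _ ≤ (1 / 4 : ℝ) ^ b / (w : ℝ) ^ (2 * μ) := by
              apply div_le_div_of_nonneg_left _ (by positivity) hw2
              positivity
          _ = ((1 / 2 : ℝ) ^ b * (1 / (w : ℝ) ^ μ)) ^ 2 := by
              rw [mul_pow, ← pow_mul, div_pow (1 : ℝ) ((w : ℝ) ^ μ), one_pow, ← pow_mul,
                mul_comm b 2, pow_mul (1 / 2 : ℝ) 2 b, mul_comm μ 2]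
              norm_num
              ring
      exact le_of_sq_le_sq g4 (by positivity)
    refine (Finset.sum_le_sum h1).trans ?_
    rw [← Finset.sum_mul]
    have h2 : ∑ b ∈ Finset.Ioc (4 * μ / 2) (4 * μ), (1 / 2 : ℝ) ^ b ≤ 1 := by
      refine le_trans (Finset.sum_le_sum_of_subset_of_nonneg ?_ fun b _ _ => by positivity)
        (sum_half_le (4 * μ))
      intro b hb
      rw [Finset.mem_Ioc] at hb
      rw [Finset.mem_Icc]
      omega
    calc _ ≤ 1 * (1 / (w : ℝ) ^ μ) := mul_le_mul_of_nonneg_right h2 (by positivity)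
      _ = _ := one_mul _

end

/-- **Finite form, sparse case.** -/
theorem sparse_finite {ι : Type} {k w L Q q n s μ : ℕ} [NeZero Q] (hq : q.Prime)
    (hL : 1 ≤ L) (hw : 1 ≤ w) (hμ : 1 ≤ μ) {Λ : ℝ} (hΛ : 1 ≤ Λ)
    (h32 : (1 + 1 / Λ) ^ (4 * μ) ≤ 3 / 2) (hc : 4 * Λ ^ 2 * (Q : ℝ) ^ (4 * μ) ≤ w)
    (hkw : k * w ≤ q) (hn : k * w * q ≤ n)
    (he1 : 4 * (q : ℝ) ^ 2 * s ≤ (w : ℝ) ^ μ)
    (he2 : 2 * (q : ℝ) ^ 2 * s * ((k * w + 1 : ℕ) : ℝ) ^ (4 * μ) ≤ 3 ^ L)
    (hcl : 2 * n ^ k * L ^ (k.choose 2) ≤ Q ^ (k.choose 2))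
    (T : Finset ι) (M : ι → SimpleGraph (Fin n) → Prop) (hM : ∀ t ∈ T, MonoSize s (M t))
    (f : SimpleGraph (Fin n) → Prop) (hf : ∀ x y, (∀ t ∈ T, M t x ↔ M t y) → (f x ↔ f y))
    (hfc : ∀ x, f x ↔ ¬ x.CliqueFree k) : q ^ 2 ≤ 6 * T.card := by
  classical
  have hV : Fintype.card (Fin k × Fin w) = k * w := by
    rw [Fintype.card_prod, Fintype.card_fin, Fintype.card_fin]
  obtain ⟨φ, hφ⟩ := exists_blocks (V := Fin k × Fin w) (n := n) hq (by rw [hV]; exact hkw)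
    (by rw [hV]; exact hn)
  have : Nonempty (Fin w) := ⟨⟨0, hw⟩⟩
  have hB := blockHyp_sparse (k := k) (w := w) (L := L) (Q := Q) μ hL hw hΛ h32 hc
  set ε : ℝ := s * (2 * (1 / (w : ℝ) ^ μ) + small (Fin k × Fin w) (4 * μ) / ((3 ^ L : ℕ) : ℝ))
    with hε
  have hε0 : 0 ≤ ε := by
    rw [hε]
    positivity
  have hw0 : (0 : ℝ) < w := by exact_mod_cast hw
  have hmain := chain_bound (φ := φ) (ε := ε) hε0
    (fun F hF => hB.main (by omega) hF) T M hM f hf
    (fun x y hxy hx => (hfc y).2 (not_cliqueFree_mono x y hxy ((hfc x).1 hx)))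
    (fun j p G => (hfc _).2 (planted_not_cliqueFree (φ j) p G))
  -- the error term
  have hJε : ((q ^ 2 : ℕ) : ℝ) * ε ≤ 1 := by
    rw [hε]
    have g1 : ((q ^ 2 : ℕ) : ℝ) * (s * (2 * (1 / (w : ℝ) ^ μ))) ≤ 1 / 2 := by
      have : ((q ^ 2 : ℕ) : ℝ) * (s * (2 * (1 / (w : ℝ) ^ μ))) =
          (4 * (q : ℝ) ^ 2 * s) / (w : ℝ) ^ μ / 2 := by
        push_cast
        ring
      rw [this]
      have : (4 * (q : ℝ) ^ 2 * s) / (w : ℝ) ^ μ ≤ 1 := by
        rw [div_le_one (by positivity)]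
        exact he1
      linarith
    have g2 : ((q ^ 2 : ℕ) : ℝ) * (s * (small (Fin k × Fin w) (4 * μ) / ((3 ^ L : ℕ) : ℝ))) ≤
        1 / 2 := by
      have e1 : ((q ^ 2 : ℕ) : ℝ) * (s * (small (Fin k × Fin w) (4 * μ) / ((3 ^ L : ℕ) : ℝ))) =
          (2 * (q : ℝ) ^ 2 * s * small (Fin k × Fin w) (4 * μ)) / 3 ^ L / 2 := by
        push_cast
        ring
      rw [e1]
      have e2 : (2 * (q : ℝ) ^ 2 * s * small (Fin k × Fin w) (4 * μ)) / 3 ^ L ≤ 1 := by
        rw [div_le_one (by positivity)]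
        refine le_trans (mul_le_mul_of_nonneg_left ?_ (by positivity)) he2
        have := small_le (Fin k × Fin w) (4 * μ)
        rw [hV] at this
        exact_mod_cast this
      linarith
    have g3 : ((q ^ 2 : ℕ) : ℝ) * (s * (2 * (1 / (w : ℝ) ^ μ) +
        small (Fin k × Fin w) (4 * μ) / ((3 ^ L : ℕ) : ℝ))) =
        ((q ^ 2 : ℕ) : ℝ) * (s * (2 * (1 / (w : ℝ) ^ μ))) +
        ((q ^ 2 : ℕ) : ℝ) * (s * (small (Fin k × Fin w) (4 * μ) / ((3 ^ L : ℕ) : ℝ))) := by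
      ring
    rw [g3]
    linarith
  -- most unions of blocks contain no clique
  set K := Fintype.card (Fin (q ^ 2) → (Sym2 (Fin k × Fin w) → (Fin L → Fin Q))) with hK
  have hK0 : (0 : ℝ) < K := by
    rw [hK]
    exact_mod_cast Fintype.card_pos
  have hbad := nc_not_cliqueFree_le φ hφ (zset L Q) k
  rw [← hK, Fintype.card_fun, Fintype.card_fin, Fintype.card_fin] at hbad
  have hQpos : 0 < Q := Nat.pos_of_ne_zero (NeZero.ne Q)
  have hbad2 : 2 * nc (fun ω : Fin (q ^ 2) → (Sym2 (Fin k × Fin w) → (Fin L → Fin Q)) =>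
      ¬ (pre φ (gr (zset L Q)) ω (q ^ 2)).CliqueFree k) ≤ K := by
    have g1 := Nat.pow_le_pow_left (card_zset_mul_le L Q) (k.choose 2)
    have g2 : 0 < (Q ^ L) ^ (k.choose 2) * Q ^ (k.choose 2) := by positivity
    refine Nat.le_of_mul_le_mul_left ?_ g2
    calc (Q ^ L) ^ (k.choose 2) * Q ^ (k.choose 2) *
          (2 * nc (fun ω : Fin (q ^ 2) → (Sym2 (Fin k × Fin w) → (Fin L → Fin Q)) =>
            ¬ (pre φ (gr (zset L Q)) ω (q ^ 2)).CliqueFree k))
        = 2 * Q ^ (k.choose 2) *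
          (nc (fun ω : Fin (q ^ 2) → (Sym2 (Fin k × Fin w) → (Fin L → Fin Q)) =>
            ¬ (pre φ (gr (zset L Q)) ω (q ^ 2)).CliqueFree k) * (Q ^ L) ^ (k.choose 2)) := by
          ring
      _ ≤ 2 * Q ^ (k.choose 2) * (n.choose k * ((zset L Q).card ^ (k.choose 2) * K)) :=
          Nat.mul_le_mul_left _ hbad
      _ ≤ 2 * Q ^ (k.choose 2) * (n ^ k * ((zset L Q).card ^ (k.choose 2) * K)) :=
          Nat.mul_le_mul_left _ (Nat.mul_le_mul_right _ (Nat.choose_le_pow n k))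
      _ = 2 * n ^ k * ((zset L Q).card * Q) ^ (k.choose 2) * K := by
          rw [mul_pow]
          ring
      _ ≤ 2 * n ^ k * (L * Q ^ L) ^ (k.choose 2) * K :=
          Nat.mul_le_mul_right _ (Nat.mul_le_mul_left _ g1)
      _ = (2 * n ^ k * L ^ (k.choose 2)) * ((Q ^ L) ^ (k.choose 2) * K) := by
          rw [mul_pow]
          ring
      _ ≤ Q ^ (k.choose 2) * ((Q ^ L) ^ (k.choose 2) * K) := Nat.mul_le_mul_right _ hcl
      _ = _ := by ring
  have hgood : (K : ℝ) / 2 ≤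
      nc (fun ω : Fin (q ^ 2) → (Sym2 (Fin k × Fin w) → (Fin L → Fin Q)) =>
        ¬ f (pre φ (gr (zset L Q)) ω (q ^ 2))) := by
    have g1 := nc_add_nc_not fun ω : Fin (q ^ 2) → (Sym2 (Fin k × Fin w) → (Fin L → Fin Q)) =>
      f (pre φ (gr (zset L Q)) ω (q ^ 2))
    have g2 : nc (fun ω : Fin (q ^ 2) → (Sym2 (Fin k × Fin w) → (Fin L → Fin Q)) =>
      f (pre φ (gr (zset L Q)) ω (q ^ 2))) =
      nc (fun ω : Fin (q ^ 2) → (Sym2 (Fin k × Fin w) → (Fin L → Fin Q)) =>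
      ¬ (pre φ (gr (zset L Q)) ω (q ^ 2)).CliqueFree k) := nc_congr fun ω => hfc _
    rw [← hK, g2] at g1
    have g3 : (2 * nc (fun ω : Fin (q ^ 2) → (Sym2 (Fin k × Fin w) → (Fin L → Fin Q)) =>
      ¬ (pre φ (gr (zset L Q)) ω (q ^ 2)).CliqueFree k) : ℝ) ≤ K := by exact_mod_cast hbad2
    have g4 : (nc (fun ω : Fin (q ^ 2) → (Sym2 (Fin k × Fin w) → (Fin L → Fin Q)) =>
      ¬ (pre φ (gr (zset L Q)) ω (q ^ 2)).CliqueFree k) : ℝ) +
      nc (fun ω : Fin (q ^ 2) → (Sym2 (Fin k × Fin w) → (Fin L → Fin Q)) =>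
        ¬ f (pre φ (gr (zset L Q)) ω (q ^ 2))) = K := by exact_mod_cast g1
    linarith
  have hfin : ((q ^ 2 : ℕ) : ℝ) * (K / 2) ≤ T.card * 3 * K := by
    calc ((q ^ 2 : ℕ) : ℝ) * (K / 2)
        ≤ ((q ^ 2 : ℕ) : ℝ) *
          nc (fun ω : Fin (q ^ 2) → (Sym2 (Fin k × Fin w) → (Fin L → Fin Q)) =>
            ¬ f (pre φ (gr (zset L Q)) ω (q ^ 2))) :=
          mul_le_mul_of_nonneg_left hgood (by positivity)
      _ ≤ T.card * (2 + ((q ^ 2 : ℕ) : ℝ) * ε) * K := hmain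
      _ ≤ T.card * 3 * K := by
          refine mul_le_mul_of_nonneg_right ?_ hK0.le
          exact mul_le_mul_of_nonneg_left (by linarith) (by positivity)
  have hfin2 : ((q ^ 2 : ℕ) : ℝ) ≤ 6 * T.card := by
    have : ((q ^ 2 : ℕ) : ℝ) * K ≤ (6 * T.card) * K := by linarith
    exact le_of_mul_le_mul_right this hK0
  exact_mod_cast hfin2

end Pool.Agent.H25.NL
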